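import Mathlib

/-!
# Generalized quadrangles of order (4, 11): the basic matrices

`IsGQ I s t` says that the incidence relation `I` is a generalized quadrangle of order `(s, t)`.
For order `(4, 11)` we introduce the incidence matrix `inc`, the collinearity matrix `adj` and the
matrix `gm = 75 - 5 N Nᵀ + J`, which satisfies `gm * gm = 75 gm` and `gm * N = 0`.
-/

namespace Pool.Agent.H2.GQ

open Matrix Finset

/-- Finite generalized quadrangles of order `(s, t)`: the three axioms for an incidence relation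
`I` between points and lines. -/
structure IsGQ {P L : Type*} (I : P → L → Prop) (s t : ℕ) : Prop where
  /-- each line is incident with exactly `s + 1` points -/
  line_points : ∀ l, Nat.card {p // I p l} = s + 1
  /-- each point is incident with exactly `t + 1` lines -/
  point_lines : ∀ p, Nat.card {l // I p l} = t + 1
  /-- two distinct points are incident with at most one common line -/
  unique_line : ∀ p q l m, p ≠ q → I p l → I q l → I p m → I q m → l = m
  /-- for a point `p` not on the line `l` there is exactly one pair `(q, m)` with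
  `q` on `l`, `p` on `m` and `q` on `m` -/
  proj : ∀ p l, ¬ I p l → ∃! qm : P × L, I qm.1 l ∧ I p qm.2 ∧ I qm.1 qm.2

section

variable {P L : Type*} [Fintype P] [Fintype L] (I : P → L → Prop)

open Classical in
/-- The incidence matrix. -/
noncomputable def inc : Matrix P L ℝ := fun p l => if I p l then 1 else 0

/-- The all-one matrix. -/
def jm (P Q : Type*) : Matrix P Q ℝ := fun _ _ => 1

omit [Fintype P] [Fintype L] in
lemma inc_sq (p : P) (l : L) : inc I p l * inc I p l = inc I p l := by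
  unfold inc; split_ifs <;> simp

omit [Fintype P] [Fintype L] in
lemma inc_eq_one_iff (p : P) (l : L) : inc I p l = 1 ↔ I p l := by
  unfold inc; split_ifs <;> simp_all

omit [Fintype P] [Fintype L] in
lemma inc_cases (p : P) (l : L) : (I p l ∧ inc I p l = 1) ∨ (¬ I p l ∧ inc I p l = 0) := by
  unfold inc; by_cases h : I p l <;> simp [h]

variable {I} (h : IsGQ I 4 11)

include h

omit [Fintype L] in
lemma sum_inc_points (l : L) : ∑ p, inc I p l = 5 := by
  classical
  have h1 := h.line_points l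
  rw [Nat.card_eq_fintype_card, Fintype.card_subtype] at h1
  simp only [inc, Finset.sum_boole]
  have : (Finset.univ.filter (fun p => I p l)).card = 5 := by
    have e : (4 + 1 : ℕ) = 5 := rfl
    rw [e] at h1
    convert h1
  rw [this]; norm_num

omit [Fintype P] in
lemma sum_inc_lines (p : P) : ∑ l, inc I p l = 12 := by
  classical
  have h1 := h.point_lines p
  rw [Nat.card_eq_fintype_card, Fintype.card_subtype] at h1
  simp only [inc, Finset.sum_boole]
  have : (Finset.univ.filter (fun l => I p l)).card = 12 := by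
    have e : (11 + 1 : ℕ) = 12 := rfl
    rw [e] at h1
    convert h1
  rw [this]; norm_num

omit [Fintype P] in
lemma nn_diag (p : P) : ∑ m, inc I p m * inc I p m = 12 := by
  simp_rw [inc_sq]
  exact sum_inc_lines h p

omit [Fintype P] in
lemma nn_line {p q : P} (hpq : p ≠ q) {l : L} (hp : I p l) (hq : I q l) :
    ∑ m, inc I p m * inc I q m = 1 := by
  classical
  rw [Finset.sum_eq_single l]
  · rw [(inc_eq_one_iff I p l).2 hp, (inc_eq_one_iff I q l).2 hq]; norm_num
  · intro m _ hm
    rcases inc_cases I p m with ⟨h1, h2⟩ | ⟨h1, h2⟩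
    · rcases inc_cases I q m with ⟨h3, h4⟩ | ⟨h3, h4⟩
      · exact absurd (h.unique_line p q m l hpq h1 h3 hp hq) hm
      · rw [h4, mul_zero]
    · rw [h2, zero_mul]
  · intro hl; exact absurd (Finset.mem_univ l) hl

omit [Fintype P] in
lemma nn_cases (p q : P) (hpq : p ≠ q) :
    ((∃ l, I p l ∧ I q l) ∧ ∑ m, inc I p m * inc I q m = 1) ∨
      ((¬ ∃ l, I p l ∧ I q l) ∧ ∑ m, inc I p m * inc I q m = 0) := by
  by_cases hl : ∃ l, I p l ∧ I q l
  · obtain ⟨l, h1, h2⟩ := hl
    exact Or.inl ⟨⟨l, h1, h2⟩, nn_line h hpq h1 h2⟩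
  · refine Or.inr ⟨hl, Finset.sum_eq_zero ?_⟩
    intro m _
    rcases inc_cases I p m with ⟨h1, h2⟩ | ⟨h1, h2⟩
    · rcases inc_cases I q m with ⟨h3, h4⟩ | ⟨h3, h4⟩
      · exact absurd ⟨m, h1, h3⟩ hl
      · rw [h4, mul_zero]
    · rw [h2, zero_mul]

/-- The fundamental identity `N Nᵀ N = J + 15 N`. -/
lemma nnn (p : P) (l : L) :
    ∑ q, (∑ m, inc I p m * inc I q m) * inc I q l = 1 + 15 * inc I p l := by
  classical
  rcases inc_cases I p l with ⟨h1, h2⟩ | ⟨h1, h2⟩
  · rw [h2]
    have : ∀ q, (∑ m, inc I p m * inc I q m) * inc I q l =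
        inc I q l + (if q = p then 11 else 0) := by
      intro q
      by_cases hq : q = p
      · subst hq
        rw [nn_diag h, h2, if_pos rfl]; norm_num
      · rw [if_neg hq]
        rcases inc_cases I q l with ⟨h3, h4⟩ | ⟨h3, h4⟩
        · rw [nn_line h (fun e => hq e.symm) h1 h3, h4]; norm_num
        · rw [h4]; norm_num
    rw [Finset.sum_congr rfl (fun q _ => this q), Finset.sum_add_distrib, sum_inc_points h,
      Finset.sum_ite_eq' Finset.univ p, if_pos (Finset.mem_univ p)]
    norm_num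
  · rw [h2]
    obtain ⟨⟨q0, m0⟩, ⟨h3, h4, h5⟩, huniq⟩ := h.proj p l h1
    simp only at h3 h4 h5
    have e1 : ∑ q, (∑ m, inc I p m * inc I q m) * inc I q l =
        ∑ qm : P × L, inc I p qm.2 * inc I qm.1 qm.2 * inc I qm.1 l := by
      rw [Fintype.sum_prod_type]
      refine Finset.sum_congr rfl (fun q _ => ?_)
      rw [Finset.sum_mul]
    rw [e1, Finset.sum_eq_single (q0, m0)]
    · simp only
      rw [(inc_eq_one_iff I _ _).2 h3, (inc_eq_one_iff I _ _).2 h4, (inc_eq_one_iff I _ _).2 h5]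
      norm_num
    · rintro ⟨q, m⟩ _ hqm
      simp only
      rcases inc_cases I p m with ⟨g1, g2⟩ | ⟨g1, g2⟩
      · rcases inc_cases I q m with ⟨g3, g4⟩ | ⟨g3, g4⟩
        · rcases inc_cases I q l with ⟨g5, g6⟩ | ⟨g5, g6⟩
          · exact absurd (huniq (q, m) ⟨g5, g1, g3⟩) hqm
          · rw [g6, mul_zero]
        · rw [g4]; ring
      · rw [g2]; ring
    · intro hl; exact absurd (Finset.mem_univ _) hl

end

section

variable {P L : Type*} [Fintype P] [Fintype L] [DecidableEq P] (I : P → L → Prop)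

/-- The collinearity matrix. -/
noncomputable def adj : Matrix P P ℝ := inc I * (inc I)ᵀ - (12 : ℝ) • (1 : Matrix P P ℝ)

/-- The matrix `G = 75 - 5 N Nᵀ + J`. -/
noncomputable def gm : Matrix P P ℝ :=
  (75 : ℝ) • (1 : Matrix P P ℝ) - (5 : ℝ) • (inc I * (inc I)ᵀ) + jm P P

omit [Fintype P] in
lemma adj_apply (p q : P) :
    adj I p q = ∑ m, inc I p m * inc I q m - (if p = q then 12 else 0) := by
  simp only [adj, Matrix.sub_apply, Matrix.mul_apply, Matrix.transpose_apply, Matrix.smul_apply,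
    Matrix.one_apply, smul_eq_mul, mul_ite, mul_one, mul_zero]

omit [Fintype P] in
lemma adj_symm : (adj I)ᵀ = adj I := by
  simp only [adj, Matrix.transpose_sub, Matrix.transpose_mul, Matrix.transpose_transpose,
    Matrix.transpose_smul, Matrix.transpose_one]

omit [Fintype P] in
lemma adj_comm (p q : P) : adj I p q = adj I q p := by
  have := congrFun (congrFun (adj_symm I) p) q
  rw [← this, Matrix.transpose_apply]

omit [Fintype P] in
lemma gm_symm : (gm I)ᵀ = gm I := by
  simp only [gm, Matrix.transpose_add, Matrix.transpose_sub, Matrix.transpose_mul,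
    Matrix.transpose_transpose, Matrix.transpose_smul, Matrix.transpose_one]
  congr 1

omit [Fintype P] in
lemma gm_comm (p q : P) : gm I p q = gm I q p := by
  have := congrFun (congrFun (gm_symm I) p) q
  rw [← this, Matrix.transpose_apply]

omit [Fintype P] in
lemma gm_eq : gm I = (15 : ℝ) • (1 : Matrix P P ℝ) - (5 : ℝ) • adj I + jm P P := by
  have e : adj I = inc I * (inc I)ᵀ - (12 : ℝ) • (1 : Matrix P P ℝ) := rfl
  rw [e, gm, smul_sub, smul_smul]
  have : (75 : ℝ) • (1 : Matrix P P ℝ) = (15 : ℝ) • (1 : Matrix P P ℝ)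
      + (5 * 12 : ℝ) • (1 : Matrix P P ℝ) := by
    rw [← add_smul]; norm_num
  rw [this]; abel

omit [Fintype P] in
lemma gm_apply (p q : P) : gm I p q = (if p = q then 15 else 0) - 5 * adj I p q + 1 := by
  rw [gm_eq]
  simp only [Matrix.add_apply, Matrix.sub_apply, Matrix.smul_apply,
    Matrix.one_apply, smul_eq_mul, mul_ite, mul_one, mul_zero, jm]

variable {I} (h : IsGQ I 4 11)

include h

omit [Fintype P] in
lemma adj_self (p : P) : adj I p p = 0 := by
  rw [adj_apply, nn_diag h, if_pos rfl]; norm_num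

omit [Fintype P] in
lemma adj_cases (p q : P) :
    ((p ≠ q ∧ ∃ l, I p l ∧ I q l) ∧ adj I p q = 1) ∨
      (¬ (p ≠ q ∧ ∃ l, I p l ∧ I q l) ∧ adj I p q = 0) := by
  by_cases hpq : p = q
  · subst hpq
    exact Or.inr ⟨fun hh => hh.1 rfl, adj_self h p⟩
  · rcases nn_cases h p q hpq with ⟨h1, h2⟩ | ⟨h1, h2⟩
    · exact Or.inl ⟨⟨hpq, h1⟩, by rw [adj_apply, h2, if_neg hpq]; norm_num⟩
    · exact Or.inr ⟨fun hh => h1 hh.2, by rw [adj_apply, h2, if_neg hpq]; norm_num⟩

omit [DecidableEq P] in
lemma nnn_mat : inc I * (inc I)ᵀ * inc I = jm P L + (15 : ℝ) • inc I := by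
  ext p l
  rw [Matrix.mul_apply]
  simp only [Matrix.mul_apply, Matrix.transpose_apply, Matrix.add_apply, Matrix.smul_apply,
    smul_eq_mul, jm]
  exact nnn h p l

omit [Fintype L] [DecidableEq P] in
lemma jm_mul_inc : jm P P * inc I = (5 : ℝ) • jm P L := by
  ext p l
  simp only [Matrix.mul_apply, jm, one_mul, Matrix.smul_apply, smul_eq_mul, mul_one]
  exact sum_inc_points h l

omit [Fintype P] [DecidableEq P] in
lemma jm_mul_incT : jm P L * (inc I)ᵀ = (12 : ℝ) • jm P P := by
  ext p q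
  simp only [Matrix.mul_apply, jm, one_mul, Matrix.smul_apply, smul_eq_mul, mul_one,
    Matrix.transpose_apply]
  exact sum_inc_lines h q

lemma gm_mul_inc : gm I * inc I = 0 := by
  rw [gm, Matrix.add_mul, Matrix.sub_mul, Matrix.smul_mul, Matrix.smul_mul, Matrix.one_mul,
    nnn_mat h, jm_mul_inc h, smul_add, smul_smul]
  norm_num

omit [DecidableEq P] in
lemma nn_mul_jm : inc I * (inc I)ᵀ * jm P P = (60 : ℝ) • jm P P := by
  have h1 : (jm P P * (inc I * (inc I)ᵀ))ᵀ = inc I * (inc I)ᵀ * jm P P := by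
    rw [Matrix.transpose_mul, Matrix.transpose_mul, Matrix.transpose_transpose]
    rfl
  rw [← h1, ← Matrix.mul_assoc, jm_mul_inc h, Matrix.smul_mul, jm_mul_incT h, smul_smul]
  ext p q
  simp [jm]; norm_num

omit [DecidableEq P] in
lemma card_points [Nonempty P] : (Fintype.card P : ℝ) = 225 := by
  classical
  have h1 : inc I * (inc I)ᵀ * (inc I * (inc I)ᵀ) = (12 : ℝ) • jm P P
      + (15 : ℝ) • (inc I * (inc I)ᵀ) := by
    rw [← Matrix.mul_assoc, nnn_mat h, Matrix.add_mul, jm_mul_incT h, Matrix.smul_mul]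
  have h2 : inc I * (inc I)ᵀ * (inc I * (inc I)ᵀ) * jm P P = (3600 : ℝ) • jm P P := by
    rw [Matrix.mul_assoc, nn_mul_jm h, Matrix.mul_smul, nn_mul_jm h, smul_smul]
    norm_num
  rw [h1, Matrix.add_mul, Matrix.smul_mul, Matrix.smul_mul, nn_mul_jm h] at h2
  obtain ⟨p⟩ := ‹Nonempty P›
  have h3 := congrFun (congrFun h2 p) p
  simp only [Matrix.add_apply, Matrix.smul_apply, Matrix.mul_apply, jm, smul_eq_mul, mul_one,
    Finset.sum_const, Finset.card_univ, nsmul_eq_mul] at h3
  linarith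

lemma gm_mul_jm [Nonempty P] : gm I * jm P P = 0 := by
  rw [gm, Matrix.add_mul, Matrix.sub_mul, Matrix.smul_mul, Matrix.smul_mul, Matrix.one_mul,
    nn_mul_jm h]
  ext p q
  simp only [Matrix.add_apply, Matrix.sub_apply, Matrix.smul_apply, Matrix.mul_apply, jm,
    smul_eq_mul, mul_one, Finset.sum_const, Finset.card_univ, nsmul_eq_mul, card_points h,
    Matrix.zero_apply]
  norm_num

lemma gm_mul_gm [Nonempty P] : gm I * gm I = (75 : ℝ) • gm I := by
  have e : gm I = (75 : ℝ) • (1 : Matrix P P ℝ) - (5 : ℝ) • (inc I * (inc I)ᵀ) + jm P P := rfl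
  nth_rw 2 [e]
  rw [Matrix.mul_add, Matrix.mul_sub, Matrix.mul_smul, Matrix.mul_smul, Matrix.mul_one,
    ← Matrix.mul_assoc, gm_mul_inc h, gm_mul_jm h, Matrix.zero_mul, smul_zero, sub_zero, add_zero]

/-- `G A = -12 G`. -/
lemma gm_mul_adj : gm I * adj I = (-12 : ℝ) • gm I := by
  have e : adj I = inc I * (inc I)ᵀ - (12 : ℝ) • (1 : Matrix P P ℝ) := rfl
  rw [e, Matrix.mul_sub, ← Matrix.mul_assoc, gm_mul_inc h, Matrix.zero_mul, Matrix.mul_smul,
    Matrix.mul_one, zero_sub, neg_smul]

/-- `A N = J + 3 N`. -/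
lemma adj_mul_inc : adj I * inc I = jm P L + (3 : ℝ) • inc I := by
  have e : adj I = inc I * (inc I)ᵀ - (12 : ℝ) • (1 : Matrix P P ℝ) := rfl
  rw [e, Matrix.sub_mul, nnn_mat h, Matrix.smul_mul, Matrix.one_mul, add_sub_assoc, ← sub_smul]
  norm_num

lemma sum_gm_line (z : P) (l : L) : ∑ w, gm I z w * inc I w l = 0 := by
  have h1 := congrFun (congrFun (gm_mul_inc h) z) l
  rwa [Matrix.mul_apply] at h1

lemma sum_adj_line (p : P) (l : L) : ∑ q, adj I p q * inc I q l = 1 + 3 * inc I p l := by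
  have h1 := congrFun (congrFun (adj_mul_inc h) p) l
  rw [Matrix.mul_apply] at h1
  simpa [jm] using h1

lemma sum_gm_adj (z x : P) : ∑ w, gm I z w * adj I w x = -12 * gm I z x := by
  have h1 := congrFun (congrFun (gm_mul_adj h) z) x
  rwa [Matrix.mul_apply] at h1

/-- `A² = 36 - 9 A + 12 J`. -/
lemma adj_mul_adj : adj I * adj I = (36 : ℝ) • (1 : Matrix P P ℝ) - (9 : ℝ) • adj I
    + (12 : ℝ) • jm P P := by
  have e : adj I = inc I * (inc I)ᵀ - (12 : ℝ) • (1 : Matrix P P ℝ) := rfl
  have e2 : inc I * (inc I)ᵀ = adj I + (12 : ℝ) • (1 : Matrix P P ℝ) := by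
    rw [e]; abel
  nth_rw 2 [e]
  rw [Matrix.mul_sub, ← Matrix.mul_assoc, adj_mul_inc h, Matrix.add_mul, jm_mul_incT h,
    Matrix.smul_mul, e2, Matrix.mul_smul, Matrix.mul_one]
  ext p q
  simp only [Matrix.add_apply, Matrix.sub_apply, Matrix.smul_apply, smul_eq_mul]
  ring

lemma sum_adj_adj (p q : P) : ∑ w, adj I p w * adj I w q =
    (if p = q then 36 else 0) - 9 * adj I p q + 12 := by
  have h1 := congrFun (congrFun (adj_mul_adj h) p) q
  rw [Matrix.mul_apply] at h1
  simpa [jm, Matrix.one_apply] using h1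

lemma sum_adj (p : P) : ∑ w, adj I p w = 48 := by
  have h1 := nn_mul_jm h
  have h2 : adj I * jm P P = (48 : ℝ) • jm P P := by
    have e : adj I = inc I * (inc I)ᵀ - (12 : ℝ) • (1 : Matrix P P ℝ) := rfl
    rw [e, Matrix.sub_mul, h1, Matrix.smul_mul, Matrix.one_mul, ← sub_smul]
    norm_num
  have h3 := congrFun (congrFun h2 p) p
  rw [Matrix.mul_apply] at h3
  simpa [jm] using h3

lemma sum_gm [Nonempty P] (z : P) : ∑ w, gm I z w = 0 := by
  have h1 := congrFun (congrFun (gm_mul_jm h) z) z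
  rw [Matrix.mul_apply] at h1
  simpa [jm] using h1

end

end Pool.Agent.H2.GQ
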