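import Mathlib

/-!
# A rigidity lemma for tight frames of five subspaces

If `Pr i`, `i ∈ S`, are five orthogonal projections of rank `11` with
`(∑ i ∈ S, Pr i) * Pr j = (5/4) • Pr j`, then `Pr i * Pr j * Pr i = (1/16) • Pr i` for `i ≠ j`.
-/

namespace Pool.Agent.H2.GQ

open Matrix Finset

section

variable {P : Type*} [Fintype P]

lemma trace_tm_nonneg (Y : Matrix P P ℝ) : 0 ≤ (Yᵀ * Y).trace := by
  simp only [Matrix.trace, Matrix.diag_apply, Matrix.mul_apply, Matrix.transpose_apply]
  exact Finset.sum_nonneg (fun i _ => Finset.sum_nonneg (fun j _ => mul_self_nonneg _))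

lemma eq_zero_of_trace_tm (Y : Matrix P P ℝ) (h : (Yᵀ * Y).trace ≤ 0) : Y = 0 := by
  simp only [Matrix.trace, Matrix.diag_apply, Matrix.mul_apply, Matrix.transpose_apply] at h
  have h0 : ∑ i, ∑ j, Y j i * Y j i = 0 :=
    le_antisymm h (Finset.sum_nonneg (fun i _ => Finset.sum_nonneg (fun j _ => mul_self_nonneg _)))
  rw [Finset.sum_eq_zero_iff_of_nonneg
    (fun i _ => Finset.sum_nonneg (fun j _ => mul_self_nonneg _))] at h0
  ext j i
  have h1 := h0 i (Finset.mem_univ i)
  rw [Finset.sum_eq_zero_iff_of_nonneg (fun j _ => mul_self_nonneg _)] at h1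
  have h2 := h1 j (Finset.mem_univ j)
  simpa using h2

variable {ι : Type*} [DecidableEq ι]

theorem frame_rigid (S : Finset ι) (Pr : ι → Matrix P P ℝ)
    (hsym : ∀ i ∈ S, (Pr i)ᵀ = Pr i) (hidem : ∀ i ∈ S, Pr i * Pr i = Pr i)
    (htr : ∀ i ∈ S, (Pr i).trace = 11) (hcard : S.card = 5)
    (hsum : ∀ j ∈ S, (∑ i ∈ S, Pr i) * Pr j = (5 / 4 : ℝ) • Pr j) (i : ι) (hi : i ∈ S) :
    ∀ j ∈ S, i ≠ j → Pr i * Pr j * Pr i = (1 / 16 : ℝ) • Pr i := by
  -- notation
  set q := Pr i with hq
  have qs : qᵀ = q := hsym i hi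
  have qq : q * q = q := hidem i hi
  have qt : q.trace = 11 := htr i hi
  -- the basic inequality
  have key : ∀ j ∈ S, i ≠ j →
      16 * (q * Pr j * q * (Pr j * q)).trace ≤ 11 / 4 - 3 * (Pr j * q).trace := by
    intro j hj hij
    set x := Pr j with hx
    have xs : xᵀ = x := hsym j hj
    have xx : x * x = x := hidem j hj
    set Y : Matrix P P ℝ := q + (4 : ℝ) • (x * q) with hY
    have hsY : (∑ k ∈ S, Pr k) * Y = (5 / 4 : ℝ) • Y := by
      rw [hY, Matrix.mul_add, Matrix.mul_smul, ← Matrix.mul_assoc, hsum j hj, hq, hsum i hi,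
        Matrix.smul_mul, smul_add, smul_comm]
    have hYT : Yᵀ = q + (4 : ℝ) • (q * x) := by
      rw [hY, Matrix.transpose_add, Matrix.transpose_smul, Matrix.transpose_mul, qs, xs]
    -- traces
    have t1 : (q * x).trace = (x * q).trace := Matrix.trace_mul_comm _ _
    have xq1 : ∀ M : Matrix P P ℝ, x * (x * M) = x * M := fun M => by
      rw [← Matrix.mul_assoc, xx]
    have qq1 : ∀ M : Matrix P P ℝ, q * (q * M) = q * M := fun M => by
      rw [← Matrix.mul_assoc, qq]
    have t2 : (q * (x * q)).trace = (x * q).trace := by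
      rw [Matrix.trace_mul_comm, Matrix.mul_assoc, qq]
    have tYY : (Yᵀ * Y).trace = 11 + 24 * (x * q).trace := by
      rw [hYT, hY]
      simp only [Matrix.add_mul, Matrix.mul_add, Matrix.smul_mul, Matrix.mul_smul,
        Matrix.mul_assoc, qq, xq1, Matrix.trace_add, Matrix.trace_smul, smul_eq_mul, t2,
        qt]
      ring
    have tx : (Yᵀ * (x * Y)).trace = 25 * (x * q).trace := by
      rw [hYT, hY]
      simp only [Matrix.add_mul, Matrix.mul_add, Matrix.smul_mul, Matrix.mul_smul,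
        Matrix.mul_assoc, xq1, Matrix.trace_add, Matrix.trace_smul, smul_eq_mul, t2]
      ring
    have tq : (Yᵀ * (q * Y)).trace = 11 + 8 * (x * q).trace
        + 16 * (q * x * q * (x * q)).trace := by
      rw [hYT, hY]
      simp only [Matrix.add_mul, Matrix.mul_add, Matrix.smul_mul, Matrix.mul_smul,
        Matrix.mul_assoc, qq, qq1, Matrix.trace_add, Matrix.trace_smul, smul_eq_mul, t2, qt]
      ring
    have nn : ∀ k ∈ S, 0 ≤ (Yᵀ * (Pr k * Y)).trace := by
      intro k hk
      have := trace_tm_nonneg (Pr k * Y)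
      rwa [Matrix.transpose_mul, hsym k hk, Matrix.mul_assoc, ← Matrix.mul_assoc (Pr k),
        hidem k hk] at this
    have tot : ∑ k ∈ S, (Yᵀ * (Pr k * Y)).trace = (5 / 4 : ℝ) * (Yᵀ * Y).trace := by
      rw [← Matrix.trace_sum, ← Matrix.mul_sum, ← Matrix.sum_mul, hsY, Matrix.mul_smul,
        Matrix.trace_smul, smul_eq_mul]
    have low : (Yᵀ * (q * Y)).trace + (Yᵀ * (x * Y)).trace ≤
        ∑ k ∈ S, (Yᵀ * (Pr k * Y)).trace := by
      have hsub : ({i, j} : Finset ι) ⊆ S := by
        intro k hk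
        simp only [Finset.mem_insert, Finset.mem_singleton] at hk
        rcases hk with rfl | rfl
        · exact hi
        · exact hj
      have h1 := Finset.sum_le_sum_of_subset_of_nonneg hsub
        (f := fun k => (Yᵀ * (Pr k * Y)).trace) (fun k hk _ => nn k hk)
      rw [Finset.sum_pair hij] at h1
      exact h1
    rw [tot, tYY, tx, tq] at low
    linarith
  -- the deviation
  have dev : ∀ j ∈ S, i ≠ j →
      ((q - (16 : ℝ) • (q * Pr j * q))ᵀ * (q - (16 : ℝ) • (q * Pr j * q))).trace ≤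
        55 - 80 * (Pr j * q).trace := by
    intro j hj hij
    have k1 := key j hj hij
    set x := Pr j with hx
    have xs : xᵀ = x := hsym j hj
    have xx : x * x = x := hidem j hj
    have hT : (q - (16 : ℝ) • (q * x * q))ᵀ = q - (16 : ℝ) • (q * x * q) := by
      rw [Matrix.transpose_sub, Matrix.transpose_smul, Matrix.transpose_mul,
        Matrix.transpose_mul, qs, xs, Matrix.mul_assoc]
    have qq1 : ∀ M : Matrix P P ℝ, q * (q * M) = q * M := fun M => by
      rw [← Matrix.mul_assoc, qq]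
    have t2 : (q * (x * q)).trace = (x * q).trace := by
      rw [Matrix.trace_mul_comm, Matrix.mul_assoc, qq]
    have e : ((q - (16 : ℝ) • (q * x * q)) * (q - (16 : ℝ) • (q * x * q))).trace =
        11 - 32 * (x * q).trace + 256 * (q * x * q * (x * q)).trace := by
      simp only [Matrix.sub_mul, Matrix.mul_sub, Matrix.smul_mul, Matrix.mul_smul,
        Matrix.mul_assoc, qq, qq1, Matrix.trace_sub, Matrix.trace_smul, smul_eq_mul, t2, qt]
      ring
    rw [hT, e]
    linarith
  -- sum of the traces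
  have hs : ∑ j ∈ S.erase i, (Pr j * q).trace = 11 / 4 := by
    have h1 : ∑ j ∈ S, (Pr j * q).trace = (5 / 4 : ℝ) * 11 := by
      rw [← Matrix.trace_sum, ← Matrix.sum_mul, hq, hsum i hi, Matrix.trace_smul, ← hq, qt,
        smul_eq_mul]
    have h2 := Finset.add_sum_erase S (fun j => (Pr j * q).trace) hi
    rw [h1] at h2
    have h3 : (Pr i * q).trace = 11 := by rw [← hq, qq, qt]
    simp only [h3] at h2
    linarith
  have hc : (S.erase i).card = 4 := by rw [Finset.card_erase_of_mem hi, hcard]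
  intro j hj hij
  have hj' : j ∈ S.erase i := Finset.mem_erase.2 ⟨fun e => hij e.symm, hj⟩
  have h1 : ∑ k ∈ S.erase i,
      ((q - (16 : ℝ) • (q * Pr k * q))ᵀ * (q - (16 : ℝ) • (q * Pr k * q))).trace ≤ 0 := by
    calc _ ≤ ∑ k ∈ S.erase i, (55 - 80 * (Pr k * q).trace) :=
          Finset.sum_le_sum (fun k hk => dev k (Finset.mem_of_mem_erase hk)
            (fun e => (Finset.ne_of_mem_erase hk) e.symm))
      _ = 0 := by
          rw [Finset.sum_sub_distrib, ← Finset.mul_sum, hs, Finset.sum_const, hc]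
          norm_num
  have h2 := Finset.single_le_sum (f := fun k =>
    ((q - (16 : ℝ) • (q * Pr k * q))ᵀ * (q - (16 : ℝ) • (q * Pr k * q))).trace)
    (fun k _ => trace_tm_nonneg _) hj'
  have h3 := eq_zero_of_trace_tm _ (h2.trans h1)
  have h4 : q = (16 : ℝ) • (q * Pr j * q) := sub_eq_zero.1 h3
  nth_rw 3 [h4]
  rw [smul_smul]
  norm_num

end

end Pool.Agent.H2.GQ
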