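import Mathlib
import Pool.Agent.H2.GQ.Basic
import Pool.Agent.H2.GQ.Frame

/-!
# The matrices `H x`

For a point `x`, `hm I x` is `75` times the projection to the orthogonal complement, inside the
column space of `G = gm I`, of the columns indexed by `x` and its neighbours.
-/

namespace Pool.Agent.H2.GQ

open Matrix Finset

variable {P L : Type*} [Fintype P] [Fintype L] [DecidableEq P] (I : P → L → Prop)

/-- the weights used in the definition of `hm` -/
noncomputable def kap (x : P) : P → ℝ := fun w => adj I x w / 20 - (if x = w then 7 / 80 else 0)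

/-- The matrix `H x`. -/
noncomputable def hm (x : P) : Matrix P P ℝ :=
  gm I - gm I * Matrix.diagonal (kap I x) * gm I

lemma hm_symm (x : P) : (hm I x)ᵀ = hm I x := by
  rw [hm, Matrix.transpose_sub, Matrix.transpose_mul, Matrix.transpose_mul, gm_symm,
    Matrix.diagonal_transpose, Matrix.mul_assoc]

lemma hm_comm (x p q : P) : hm I x p q = hm I x q p := by
  have := congrFun (congrFun (hm_symm I x) p) q
  rw [← this, Matrix.transpose_apply]

lemma hm_apply (x p q : P) :
    hm I x p q = gm I p q - ∑ w, gm I p w * kap I x w * gm I w q := by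
  rw [hm, Matrix.sub_apply, Matrix.mul_apply]
  simp only [Matrix.mul_diagonal]

variable {I} (h : IsGQ I 4 11)

include h

lemma hm_mul_gm [Nonempty P] (x : P) : hm I x * gm I = (75 : ℝ) • hm I x := by
  rw [hm, Matrix.sub_mul, gm_mul_gm h, Matrix.mul_assoc, gm_mul_gm h, Matrix.mul_smul, smul_sub]

lemma gm_mul_hm [Nonempty P] (x : P) : gm I * hm I x = (75 : ℝ) • hm I x := by
  rw [hm, Matrix.mul_sub, gm_mul_gm h, ← Matrix.mul_assoc, ← Matrix.mul_assoc, gm_mul_gm h,
    Matrix.smul_mul, Matrix.smul_mul, smul_sub]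

lemma adj_mul_adj_line {x y : P} {l : L} (hxy : x ≠ y) (hx : I x l) (hy : I y l) (w : P) :
    adj I x w * adj I w y =
      inc I w l - (if x = w then 1 else 0) - (if w = y then 1 else 0) := by
  by_cases hw1 : x = w
  · subst hw1
    rw [adj_self h, (inc_eq_one_iff I x l).2 hx, if_pos rfl, if_neg hxy]; norm_num
  by_cases hw2 : w = y
  · subst hw2
    rw [adj_self h w, (inc_eq_one_iff I w l).2 hy, if_pos rfl, if_neg hxy]; norm_num
  rw [if_neg hw1, if_neg hw2]
  rcases inc_cases I w l with ⟨h1, h2⟩ | ⟨h1, h2⟩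
  · have e1 : adj I x w = 1 := by
      rcases adj_cases h x w with ⟨_, h4⟩ | ⟨h3, _⟩
      · exact h4
      · exact absurd ⟨hw1, l, hx, h1⟩ h3
    have e2 : adj I w y = 1 := by
      rcases adj_cases h w y with ⟨_, h4⟩ | ⟨h3, _⟩
      · exact h4
      · exact absurd ⟨hw2, l, h1, hy⟩ h3
    rw [e1, e2, h2]; norm_num
  · have h3 := sum_adj_line h w l
    rw [h2] at h3
    have hx1 := (inc_eq_one_iff I x l).2 hx
    have hy1 := (inc_eq_one_iff I y l).2 hy
    have h4 : adj I w x + adj I w y ≤ ∑ q, adj I w q * inc I q l := by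
      have h5 := Finset.sum_le_sum_of_subset_of_nonneg (Finset.subset_univ ({x, y} : Finset P))
        (f := fun q => adj I w q * inc I q l) (fun q _ _ => by
          rcases adj_cases h w q with ⟨_, g1⟩ | ⟨_, g1⟩ <;>
          rcases inc_cases I q l with ⟨_, g2⟩ | ⟨_, g2⟩ <;> rw [g1, g2] <;> norm_num)
      rw [Finset.sum_pair hxy, hx1, hy1, mul_one, mul_one] at h5
      exact h5
    rw [h3] at h4
    rw [h2, adj_comm I x w]
    rcases adj_cases h w x with ⟨_, g1⟩ | ⟨_, g1⟩ <;>
      rcases adj_cases h w y with ⟨_, g2⟩ | ⟨_, g2⟩ <;> rw [g1, g2] at h4 ⊢ <;> norm_num at h4 <;>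
      norm_num [g1, g2]

lemma sum_adj_adj_gm {x y : P} (hxy : adj I x y = 1) (z : P) :
    ∑ w, gm I z w * (adj I x w * adj I w y) = - gm I z x - gm I z y := by
  obtain ⟨hne, l, hx, hy⟩ : x ≠ y ∧ ∃ l, I x l ∧ I y l := by
    rcases adj_cases h x y with ⟨h1, _⟩ | ⟨_, h1⟩
    · exact h1
    · rw [hxy] at h1; norm_num at h1
  simp_rw [adj_mul_adj_line h hne hx hy, mul_sub, Finset.sum_sub_distrib, sum_gm_line h]
  simp only [mul_ite, mul_one, mul_zero, Finset.sum_ite_eq, Finset.sum_ite_eq',
    Finset.mem_univ, if_true]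
  ring

lemma hm_self [Nonempty P] (x z : P) : hm I x z x = 0 := by
  rw [hm_apply]
  have e : ∀ w, gm I z w * kap I x w * gm I w x =
      (-1 / 5 : ℝ) * (gm I z w * adj I w x) + (if x = w then (-7 / 5) * gm I z w else 0) := by
    intro w
    unfold kap
    by_cases hw : x = w
    · subst hw
      rw [if_pos rfl, if_pos rfl, gm_apply I x x, if_pos rfl, adj_self h]
      ring
    · rw [if_neg hw, if_neg hw, gm_apply I w x, if_neg (fun e => hw e.symm), adj_comm I x w]
      rcases adj_cases h w x with ⟨_, g1⟩ | ⟨_, g1⟩ <;> rw [g1] <;> ring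
  rw [Finset.sum_congr rfl (fun w _ => e w), Finset.sum_add_distrib, ← Finset.mul_sum,
    sum_gm_adj h]
  simp only [Finset.sum_ite_eq, Finset.mem_univ, if_true]
  ring

lemma hm_adj [Nonempty P] {x y : P} (hxy : adj I x y = 1) (z : P) : hm I x z y = 0 := by
  rw [hm_apply]
  have hne : x ≠ y := by
    rintro rfl
    rw [adj_self h] at hxy; norm_num at hxy
  have e : ∀ w, gm I z w * kap I x w * gm I w y =
      (if w = y then (15 / 20 : ℝ) * gm I z w else 0)
      - (5 / 20 : ℝ) * (gm I z w * (adj I x w * adj I w y))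
      + (1 / 20 : ℝ) * (gm I z w * adj I w x) + (if x = w then (28 / 80) * gm I z w else 0) := by
    intro w
    unfold kap
    by_cases hw : x = w
    · subst hw
      rw [if_pos rfl, if_neg hne, gm_apply I x y, if_neg hne, hxy, adj_self h, if_pos rfl]
      ring
    · rw [if_neg hw, if_neg hw, gm_apply I w y, adj_comm I x w]
      by_cases hw2 : w = y
      · subst hw2
        rw [if_pos rfl, if_pos rfl, adj_self h w, adj_comm I w x, hxy]
        ring
      · rw [if_neg hw2, if_neg hw2]
        ring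
  rw [Finset.sum_congr rfl (fun w _ => e w), Finset.sum_add_distrib, Finset.sum_add_distrib,
    Finset.sum_sub_distrib, ← Finset.mul_sum, ← Finset.mul_sum, sum_adj_adj_gm h hxy,
    sum_gm_adj h]
  simp only [Finset.sum_ite_eq, Finset.sum_ite_eq', Finset.mem_univ, if_true]
  ring

lemma hm_mul_kap [Nonempty P] (x : P) : hm I x * Matrix.diagonal (kap I x) = 0 := by
  ext z w
  rw [Matrix.mul_diagonal, Matrix.zero_apply]
  by_cases hw : x = w
  · subst hw; rw [hm_self h, zero_mul]
  · rcases adj_cases h x w with ⟨_, g1⟩ | ⟨_, g1⟩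
    · rw [hm_adj h g1, zero_mul]
    · unfold kap
      rw [g1, if_neg hw]; ring

lemma hm_sq [Nonempty P] (x : P) : hm I x * hm I x = (75 : ℝ) • hm I x := by
  have e : hm I x = gm I - gm I * Matrix.diagonal (kap I x) * gm I := rfl
  nth_rw 2 [e]
  rw [Matrix.mul_sub, hm_mul_gm h, ← Matrix.mul_assoc, ← Matrix.mul_assoc, hm_mul_gm h,
    Matrix.smul_mul, hm_mul_kap h, smul_zero, Matrix.zero_mul, sub_zero]

lemma sum_kap (x : P) : ∑ w, kap I x w = 185 / 80 := by
  unfold kap
  rw [Finset.sum_sub_distrib, ← Finset.sum_div, sum_adj h]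
  simp only [Finset.sum_ite_eq, Finset.mem_univ, if_true]
  norm_num

omit [Fintype P] in
lemma gm_self (p : P) : gm I p p = 16 := by
  rw [gm_apply, if_pos rfl, adj_self h]; norm_num

lemma trace_hm [Nonempty P] (x : P) : (hm I x).trace = 825 := by
  rw [hm, Matrix.trace_sub, Matrix.trace_mul_comm, ← Matrix.mul_assoc, gm_mul_gm h,
    Matrix.smul_mul, Matrix.trace_smul]
  simp only [Matrix.trace, Matrix.diag_apply, Matrix.mul_diagonal, gm_self h, Finset.sum_const,
    Finset.card_univ, nsmul_eq_mul, card_points h, ← Finset.mul_sum, sum_kap h, smul_eq_mul]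
  norm_num

lemma hm_mul_inc [Nonempty P] (x : P) : hm I x * inc I = 0 := by
  have e : (75 : ℝ) • (hm I x * inc I) = 0 := by
    rw [← Matrix.smul_mul, ← hm_mul_gm h, Matrix.mul_assoc, gm_mul_inc h, Matrix.mul_zero]
  exact (smul_eq_zero.1 e).resolve_left (by norm_num)

/-- The sum of the matrices `H q` over the points `q` of a line. -/
lemma sum_hm_line [Nonempty P] (l : L) : ∑ q, inc I q l • hm I q =
    (5 / 4 : ℝ) • gm I
      - (1 / 16 : ℝ) • (gm I * Matrix.diagonal (fun w => inc I w l) * gm I) := by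
  have e1 : ∀ q, inc I q l • hm I q = inc I q l • gm I
      - gm I * (inc I q l • Matrix.diagonal (kap I q)) * gm I := by
    intro q
    rw [hm, smul_sub, Matrix.mul_smul, Matrix.smul_mul]
  rw [Finset.sum_congr rfl (fun q _ => e1 q), Finset.sum_sub_distrib, ← Finset.sum_smul,
    sum_inc_points h, ← Matrix.sum_mul, ← Matrix.mul_sum]
  have e2 : ∑ q, inc I q l • Matrix.diagonal (kap I q) =
      (1 / 20 : ℝ) • (1 : Matrix P P ℝ)
        + (1 / 16 : ℝ) • Matrix.diagonal (fun w => inc I w l) := by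
    ext a b
    rw [Matrix.sum_apply]
    by_cases hab : a = b
    · subst hab
      simp only [Matrix.smul_apply, Matrix.diagonal_apply_eq, smul_eq_mul, Matrix.add_apply,
        Matrix.one_apply_eq, kap]
      have e3 : ∀ q, inc I q l * (adj I q a / 20 - if q = a then 7 / 80 else 0) =
          (adj I a q * inc I q l) / 20 - (if q = a then inc I q l * (7 / 80) else 0) := by
        intro q
        rw [adj_comm I q a]
        split_ifs <;> ring
      rw [Finset.sum_congr rfl (fun q _ => e3 q), Finset.sum_sub_distrib, ← Finset.sum_div,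
        sum_adj_line h]
      simp only [Finset.sum_ite_eq', Finset.mem_univ, if_true]
      ring
    · simp only [Matrix.smul_apply, Matrix.diagonal_apply_ne _ hab, smul_eq_mul,
        Matrix.add_apply, Matrix.one_apply_ne hab, mul_zero, Finset.sum_const_zero, add_zero]
  rw [e2, Matrix.mul_add, Matrix.add_mul, Matrix.mul_smul, Matrix.mul_smul, Matrix.mul_one,
    Matrix.smul_mul, Matrix.smul_mul, gm_mul_gm h, smul_smul, ← sub_sub, ← sub_smul]
  norm_num

lemma sum_hm_line_mul [Nonempty P] {l : L} {x : P} (hx : I x l) :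
    (∑ q, inc I q l • hm I q) * hm I x = (5 / 4 * 75 : ℝ) • hm I x := by
  rw [sum_hm_line h, Matrix.sub_mul, Matrix.smul_mul, Matrix.smul_mul, gm_mul_hm h,
    Matrix.mul_assoc, gm_mul_hm h, Matrix.mul_smul, Matrix.mul_assoc]
  have e : Matrix.diagonal (fun w => inc I w l) * hm I x = 0 := by
    ext w z
    rw [Matrix.diagonal_mul, Matrix.zero_apply]
    rcases inc_cases I w l with ⟨h1, h2⟩ | ⟨h1, h2⟩
    · rw [hm_comm]
      by_cases hw : x = w
      · subst hw; rw [hm_self h, mul_zero]
      · rcases adj_cases h x w with ⟨_, g1⟩ | ⟨g1, _⟩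
        · rw [hm_adj h g1, mul_zero]
        · exact absurd ⟨hw, l, hx, h1⟩ g1
    · rw [h2, zero_mul]
  rw [e, Matrix.mul_zero, smul_zero, smul_zero, sub_zero, smul_smul]

/-- The rigidity: `H x H p H x = (75² / 16) H x` for collinear `x`, `p`. -/
theorem hm_rigid [Nonempty P] {x p : P} (hxp : adj I x p = 1) :
    hm I x * hm I p * hm I x = (75 ^ 2 / 16 : ℝ) • hm I x := by
  classical
  obtain ⟨hne, l, hx, hp⟩ : x ≠ p ∧ ∃ l, I x l ∧ I p l := by
    rcases adj_cases h x p with ⟨h1, _⟩ | ⟨_, h1⟩
    · exact h1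
    · rw [hxp] at h1; norm_num at h1
  set S : Finset P := Finset.univ.filter (fun q => I q l) with hS
  have hmem : ∀ q, q ∈ S ↔ I q l := fun q => by simp [hS]
  have hcard : S.card = 5 := by
    have h1 := sum_inc_points h l
    have h2 : ∑ p, inc I p l = (S.card : ℝ) := by
      simp only [inc, Finset.sum_boole, hS]
    rw [h2] at h1
    exact_mod_cast h1
  have hsumS : ∑ q ∈ S, hm I q = ∑ q, inc I q l • hm I q := by
    rw [hS, Finset.sum_filter]
    refine Finset.sum_congr rfl (fun q _ => ?_)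
    rcases inc_cases I q l with ⟨h1, h2⟩ | ⟨h1, h2⟩
    · rw [if_pos h1, h2, one_smul]
    · rw [if_neg h1, h2, zero_smul]
  have key := frame_rigid S (fun q => (1 / 75 : ℝ) • hm I q)
    (fun q _ => by rw [Matrix.transpose_smul, hm_symm])
    (fun q _ => by
      rw [Matrix.smul_mul, Matrix.mul_smul, hm_sq h, smul_smul, smul_smul]; norm_num)
    (fun q _ => by rw [Matrix.trace_smul, trace_hm h, smul_eq_mul]; norm_num)
    hcard
    (fun q hq => by
      rw [← Finset.smul_sum, hsumS, Matrix.smul_mul, Matrix.mul_smul,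
        sum_hm_line_mul h ((hmem q).1 hq), smul_smul, smul_smul, smul_smul]
      norm_num)
    x ((hmem x).2 hx) p ((hmem p).2 hp) hne
  simp only [Matrix.smul_mul, Matrix.mul_smul, smul_smul] at key
  have k2 := congrArg (fun M => (75 ^ 3 : ℝ) • M) key
  simp only [smul_smul] at k2
  norm_num at k2
  norm_num
  exact k2

/-- `H x H y H x = 75² (H x - H x D y H x)`. -/
lemma hm_hm_hm [Nonempty P] (x y : P) :
    hm I x * hm I y * hm I x =
      (75 ^ 2 : ℝ) • (hm I x - hm I x * Matrix.diagonal (kap I y) * hm I x) := by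
  have e : hm I y = gm I - gm I * Matrix.diagonal (kap I y) * gm I := rfl
  rw [e, Matrix.mul_sub, Matrix.sub_mul, hm_mul_gm h, Matrix.smul_mul, hm_sq h, smul_smul]
  have e2 : hm I x * (gm I * Matrix.diagonal (kap I y) * gm I) * hm I x =
      (hm I x * gm I) * Matrix.diagonal (kap I y) * (gm I * hm I x) := by
    simp only [Matrix.mul_assoc]
  rw [e2, hm_mul_gm h, gm_mul_hm h, Matrix.smul_mul, Matrix.smul_mul, Matrix.mul_smul, smul_smul,
    ← smul_sub]
  norm_num

/-- `∑ z, A p z H(y,z) H(z,w) = (75/4) H(y,w)` for `p` collinear with `x`. -/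
theorem sum_adj_hm_hm [Nonempty P] {x p : P} (hxp : adj I x p = 1) (y w : P) :
    ∑ z, adj I p z * (hm I x y z * hm I x z w) = 75 / 4 * hm I x y w := by
  have h1 := hm_rigid h hxp
  rw [hm_hm_hm h] at h1
  have h2 := congrFun (congrFun h1 y) w
  rw [Matrix.smul_apply, Matrix.sub_apply, Matrix.smul_apply, Matrix.mul_apply] at h2
  simp only [Matrix.mul_diagonal, smul_eq_mul, kap] at h2
  have e : ∑ z, hm I x y z * (adj I p z / 20 - if p = z then 7 / 80 else 0) * hm I x z w =
      (∑ z, adj I p z * (hm I x y z * hm I x z w)) / 20 := by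
    rw [Finset.sum_div]
    refine Finset.sum_congr rfl (fun z _ => ?_)
    by_cases hz : p = z
    · subst hz
      rw [hm_adj h hxp]; ring
    · rw [if_neg hz]; ring
  rw [e] at h2
  linarith

end Pool.Agent.H2.GQ
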