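import Mathlib
import Pool.Agent.H2.GQ.Proj

/-!
# The structure at a point

We fix a point `x` and compute the entries of `H = hm I x` at pairs of points not collinear with
`x`, in terms of the integers `kk I x y z = 5 - (number of common neighbours of x, y, z)`.
-/

namespace Pool.Agent.H2.GQ

open Matrix Finset

variable {P L : Type*} [Fintype P] [Fintype L] [DecidableEq P] (I : P → L → Prop)

/-- `z` is different from and not collinear with `x` -/
def Far (x z : P) : Prop := x ≠ z ∧ adj I x z = 0

open Classical in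
/-- the integral collinearity matrix -/
noncomputable def az (p q : P) : ℤ := if adj I p q = 1 then 1 else 0

/-- the integers `K` -/
noncomputable def kk (x y z : P) : ℤ :=
  5 + (if y = z then 12 else 0) - 4 * az I y z - ∑ w, az I x w * az I y w * az I w z

variable {I} (h : IsGQ I 4 11)

include h

omit [Fintype P] in
lemma az_cast (p q : P) : ((az I p q : ℤ) : ℝ) = adj I p q := by
  unfold az
  rcases adj_cases h p q with ⟨_, g1⟩ | ⟨_, g1⟩
  · rw [if_pos g1, g1]; norm_num
  · rw [if_neg (by rw [g1]; norm_num), g1]; norm_num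

omit [Fintype P] in
lemma adj_sq (p q : P) : adj I p q * adj I p q = adj I p q := by
  rcases adj_cases h p q with ⟨_, g1⟩ | ⟨_, g1⟩ <;> rw [g1] <;> norm_num

lemma kk_cast (x y z : P) : ((kk I x y z : ℤ) : ℝ) =
    5 + (if y = z then 12 else 0) - 4 * adj I y z - ∑ w, adj I x w * adj I y w * adj I w z := by
  unfold kk
  push_cast
  simp only [az_cast h]

lemma hm_far [Nonempty P] {x z : P} (hz : ¬ Far I x z) (y : P) : hm I x y z = 0 := by
  by_cases hx : x = z
  · subst hx; exact hm_self h _ _
  · rcases adj_cases h x z with ⟨_, g1⟩ | ⟨_, g1⟩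
    · exact hm_adj h g1 y
    · exact absurd ⟨hx, g1⟩ hz

lemma hm_far' [Nonempty P] {x z : P} (hz : ¬ Far I x z) (y : P) : hm I x z y = 0 := by
  rw [hm_comm]; exact hm_far h hz y

lemma common_twelve {x y : P} (hy : Far I x y) : ∑ w, adj I x w * adj I y w = 12 := by
  have h1 := sum_adj_adj h x y
  rw [if_neg hy.1, hy.2] at h1
  simp only [adj_comm I y]
  linarith

/-- The entries of `H x`. -/
lemma hm_entry [Nonempty P] {x y z : P} (hy : Far I x y) (hz : Far I x z) :
    hm I x y z = (if y = z then 15 else 0) - 5 * adj I y z + 75 / 16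
      - 5 / 4 * ∑ w, adj I x w * adj I y w * adj I w z := by
  rw [hm_apply]
  have e : ∀ w, gm I y w * kap I x w * gm I w z =
      (1 / 20 : ℝ) * adj I x w - (1 / 4) * (adj I x w * adj I y w)
        - (1 / 4) * (adj I x w * adj I z w) + (5 / 4) * (adj I x w * adj I y w * adj I w z)
        - (if x = w then 7 / 80 else 0) := by
    intro w
    unfold kap
    by_cases hw : x = w
    · subst hw
      rw [if_pos rfl, adj_self h, gm_apply I y x, gm_apply I x z, if_neg hz.1,
        if_neg (fun e => hy.1 e.symm), hz.2, adj_comm I y x, hy.2]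
      norm_num
    · rw [if_neg hw]
      rcases adj_cases h x w with ⟨_, g1⟩ | ⟨_, g1⟩
      · have e1 : y ≠ w := by
          rintro rfl
          rw [hy.2] at g1; norm_num at g1
        have e2 : w ≠ z := by
          rintro rfl
          rw [hz.2] at g1; norm_num at g1
        rw [g1, gm_apply I y w, gm_apply I w z, if_neg e1, if_neg e2, adj_comm I z w]
        ring
      · rw [g1]; ring
  rw [Finset.sum_congr rfl (fun w _ => e w), Finset.sum_sub_distrib, Finset.sum_add_distrib,
    Finset.sum_sub_distrib, Finset.sum_sub_distrib, ← Finset.mul_sum, ← Finset.mul_sum,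
    ← Finset.mul_sum, ← Finset.mul_sum, sum_adj h, common_twelve h hy, common_twelve h hz,
    gm_apply I y z]
  simp only [Finset.sum_ite_eq, Finset.mem_univ, if_true]
  ring

lemma hm_kk [Nonempty P] {x y z : P} (hy : Far I x y) (hz : Far I x z) :
    hm I x y z = 5 / 4 * (kk I x y z : ℝ) - 25 / 16 := by
  rw [hm_entry h hy hz, kk_cast h]
  split_ifs <;> ring

lemma kk_self {x y : P} (hy : Far I x y) : kk I x y y = 5 := by
  have h1 : ((kk I x y y : ℤ) : ℝ) = 5 := by
    rw [kk_cast h, if_pos rfl, adj_self h]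
    have e : ∀ w, adj I x w * adj I y w * adj I w y = adj I x w * adj I y w := by
      intro w
      rw [adj_comm I w y, mul_assoc, adj_sq h]
    rw [Finset.sum_congr rfl (fun w _ => e w), common_twelve h hy]
    norm_num
  exact_mod_cast h1

lemma kk_adj {x y z : P} (hy : Far I x y) (hz : Far I x z) (hyz : adj I y z = 1) :
    kk I x y z = 0 := by
  obtain ⟨hne, l, hly, hlz⟩ : y ≠ z ∧ ∃ l, I y l ∧ I z l := by
    rcases adj_cases h y z with ⟨h1, _⟩ | ⟨_, h1⟩
    · exact h1
    · rw [hyz] at h1; norm_num at h1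
  have hlx : inc I x l = 0 := by
    rcases inc_cases I x l with ⟨h1, _⟩ | ⟨_, h1⟩
    · rcases adj_cases h x y with ⟨_, h2⟩ | ⟨h2, _⟩
      · rw [hy.2] at h2; norm_num at h2
      · exact absurd ⟨hy.1, l, h1, hly⟩ h2
    · exact h1
  have h1 : ((kk I x y z : ℤ) : ℝ) = 0 := by
    rw [kk_cast h, if_neg hne, hyz]
    have e : ∀ w, adj I x w * adj I y w * adj I w z =
        adj I x w * inc I w l - (if y = w then adj I x y else 0)
          - (if w = z then adj I x z else 0) := by
      intro w
      rw [mul_assoc, adj_mul_adj_line h hne hly hlz]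
      by_cases e1 : y = w
      · subst e1
        rw [if_pos rfl, if_pos rfl, if_neg hne, if_neg hne]; ring
      · rw [if_neg e1, if_neg e1]
        by_cases e2 : w = z
        · subst e2
          rw [if_pos rfl, if_pos rfl]; ring
        · rw [if_neg e2, if_neg e2]; ring
    rw [Finset.sum_congr rfl (fun w _ => e w), Finset.sum_sub_distrib, Finset.sum_sub_distrib,
      sum_adj_line h, hlx]
    simp only [Finset.sum_ite_eq, Finset.sum_ite_eq', Finset.mem_univ, if_true, hy.2, hz.2]
    norm_num
  exact_mod_cast h1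

lemma kk_le {x y z : P} (hne : y ≠ z) : kk I x y z ≤ 5 := by
  have h1 : ((kk I x y z : ℤ) : ℝ) ≤ 5 := by
    rw [kk_cast h, if_neg hne]
    have e1 : 0 ≤ adj I y z := by
      rcases adj_cases h y z with ⟨_, g1⟩ | ⟨_, g1⟩ <;> rw [g1] <;> norm_num
    have e2 : 0 ≤ ∑ w, adj I x w * adj I y w * adj I w z := by
      refine Finset.sum_nonneg (fun w _ => ?_)
      rcases adj_cases h x w with ⟨_, g1⟩ | ⟨_, g1⟩ <;>
        rcases adj_cases h y w with ⟨_, g2⟩ | ⟨_, g2⟩ <;>
        rcases adj_cases h w z with ⟨_, g3⟩ | ⟨_, g3⟩ <;> rw [g1, g2, g3] <;> norm_num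
    linarith
  exact_mod_cast h1

/-! ### Sums -/

lemma sum_hm [Nonempty P] (x y : P) : ∑ z, hm I x y z = 0 := by
  have h1 : hm I x * jm P P = 0 := by
    have e : (75 : ℝ) • (hm I x * jm P P) = 0 := by
      rw [← Matrix.smul_mul, ← hm_mul_gm h, Matrix.mul_assoc, gm_mul_jm h, Matrix.mul_zero]
    exact (smul_eq_zero.1 e).resolve_left (by norm_num)
  have h2 := congrFun (congrFun h1 y) y
  rw [Matrix.mul_apply] at h2
  simpa [jm] using h2

lemma sum_hm_hm [Nonempty P] (x y w : P) :
    ∑ z, hm I x y z * hm I x z w = 75 * hm I x y w := by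
  have h2 := congrFun (congrFun (hm_sq h x) y) w
  rwa [Matrix.mul_apply] at h2

lemma sum_hm_inc [Nonempty P] (x y : P) (l : L) : ∑ z, hm I x y z * inc I z l = 0 := by
  have h2 := congrFun (congrFun (hm_mul_inc h x) y) l
  rwa [Matrix.mul_apply] at h2

lemma sum_hm_adj [Nonempty P] (x b y : P) :
    ∑ z, hm I x b z * adj I z y = -12 * hm I x b y := by
  have h1 : hm I x * adj I = (-12 : ℝ) • hm I x := by
    have e : adj I = inc I * (inc I)ᵀ - (12 : ℝ) • (1 : Matrix P P ℝ) := rfl
    rw [e, Matrix.mul_sub, ← Matrix.mul_assoc, hm_mul_inc h, Matrix.zero_mul, Matrix.mul_smul,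
      Matrix.mul_one, zero_sub, neg_smul]
  have h2 := congrFun (congrFun h1 b) y
  rwa [Matrix.mul_apply] at h2

lemma hm_diag [Nonempty P] {x y : P} (hy : Far I x y) : hm I x y y = 75 / 16 := by
  rw [hm_kk h hy hy, kk_self h hy]; norm_num

/-- The cubic identity. -/
lemma cubic [Nonempty P] {x y : P} (hy : Far I x y) (a b : P) :
    ∑ z, hm I x y z * (hm I x z a * hm I x z b) =
      15 * (hm I x y a * hm I x y b)
        - 5 * ∑ z, adj I y z * (hm I x z a * hm I x z b) + 1125 / 16 * hm I x a b := by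
  have e : ∀ z, hm I x y z * (hm I x z a * hm I x z b) =
      (if y = z then 15 * (hm I x y a * hm I x y b) else 0)
        - 5 * (adj I y z * (hm I x z a * hm I x z b))
        + 75 / 16 * (hm I x a z * hm I x z b)
        - 5 / 4 * ∑ w, adj I x w * adj I y w *
            (adj I w z * (hm I x a z * hm I x z b)) := by
    intro z
    by_cases hz : Far I x z
    · rw [hm_entry h hy hz, hm_comm I x a z]
      have e2 : ∑ w, adj I x w * adj I y w * (adj I w z * (hm I x z a * hm I x z b)) =
          (∑ w, adj I x w * adj I y w * adj I w z) * (hm I x z a * hm I x z b) := by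
        rw [Finset.sum_mul]
        exact Finset.sum_congr rfl (fun w _ => by ring)
      rw [e2]
      by_cases hyz : y = z
      · subst hyz; rw [if_pos rfl, if_pos rfl]; ring
      · rw [if_neg hyz, if_neg hyz]; ring
    · have hyz : y ≠ z := by rintro rfl; exact hz hy
      rw [if_neg hyz, hm_far' h hz b]
      simp
  rw [Finset.sum_congr rfl (fun z _ => e z), Finset.sum_sub_distrib, Finset.sum_add_distrib,
    Finset.sum_sub_distrib, ← Finset.mul_sum, ← Finset.mul_sum, ← Finset.mul_sum, sum_hm_hm h,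
    Finset.sum_comm]
  have e3 : ∀ w, ∑ z, adj I x w * adj I y w * (adj I w z * (hm I x a z * hm I x z b)) =
      (adj I x w * adj I y w) * (75 / 4 * hm I x a b) := by
    intro w
    rw [← Finset.mul_sum]
    rcases adj_cases h x w with ⟨_, g1⟩ | ⟨_, g1⟩
    · rw [sum_adj_hm_hm h g1]
    · rw [g1]; ring
  rw [Finset.sum_congr rfl (fun w _ => e3 w), ← Finset.sum_mul, common_twelve h hy]
  simp only [Finset.sum_ite_eq, Finset.mem_univ, if_true]
  ring

lemma fsum_self [Nonempty P] {x y : P} (hy : Far I x y) (b : P) :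
    ∑ z, adj I y z * (hm I x z y * hm I x z b) = 75 / 4 * hm I x y b := by
  have e : ∀ z, adj I y z * (hm I x z y * hm I x z b) =
      (-25 / 16 : ℝ) * (hm I x b z * adj I z y) := by
    intro z
    by_cases hz : Far I x z
    · rcases adj_cases h y z with ⟨_, g1⟩ | ⟨_, g1⟩
      · rw [hm_kk h hz hy, kk_adj h hz hy (by rw [adj_comm]; exact g1), adj_comm I z y, g1,
          hm_comm I x z b]
        norm_num
      · rw [adj_comm I z y, g1]; ring
    · rw [hm_far' h hz b, hm_far h hz b]; ring
  rw [Finset.sum_congr rfl (fun z _ => e z), ← Finset.mul_sum, sum_hm_adj h, hm_comm I x b y]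
  ring

lemma quad [Nonempty P] {x y : P} (hy : Far I x y) (b : P) :
    ∑ z, hm I x y z * (hm I x z y * hm I x z b) = 375 / 8 * hm I x y b := by
  rw [cubic h hy, fsum_self h hy, hm_diag h hy]
  ring

lemma fsum [Nonempty P] {x y b : P} (hy : Far I x y) (hb : Far I x b) :
    ∑ z, adj I y z * (hm I x z b * hm I x z b) =
      3 * hm I x y b ^ 2 - 75 / 8 * hm I x y b + 16875 / 256 := by
  have h1 := cubic h hy b b
  have h2 := quad h hb y
  have h3 : ∑ z, hm I x b z * (hm I x z b * hm I x z y) =
      ∑ z, hm I x y z * (hm I x z b * hm I x z b) := by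
    refine Finset.sum_congr rfl (fun z _ => ?_)
    rw [hm_comm I x b z, hm_comm I x y z]; ring
  rw [h3] at h2
  rw [h2, hm_diag h hb, hm_comm I x b y] at h1
  linarith

lemma sum_hm_sq [Nonempty P] {x y : P} (hy : Far I x y) :
    ∑ z, hm I x y z ^ 2 = 5625 / 16 := by
  have h1 := sum_hm_hm h x y y
  rw [hm_diag h hy] at h1
  have e : ∑ z, hm I x y z ^ 2 = ∑ z, hm I x y z * hm I x z y := by
    refine Finset.sum_congr rfl (fun z _ => ?_)
    rw [hm_comm I x z y]; ring
  rw [e, h1]; norm_num

lemma sum_hm_cube [Nonempty P] {x y : P} (hy : Far I x y) :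
    ∑ z, hm I x y z ^ 3 = 28125 / 128 := by
  have h1 := quad h hy y
  rw [hm_diag h hy] at h1
  have e : ∑ z, hm I x y z ^ 3 = ∑ z, hm I x y z * (hm I x z y * hm I x z y) := by
    refine Finset.sum_congr rfl (fun z _ => ?_)
    rw [hm_comm I x z y]; ring
  rw [e, h1]; norm_num

/-- positivity of `H x H y H x` -/
lemma hm_pos [Nonempty P] {x y z : P} (hy : Far I x y) (hz : Far I x z) :
    0 ≤ 75 / 16 - (3 * hm I x y z ^ 2 - 75 / 8 * hm I x y z + 16875 / 256) / 20
      + 7 / 80 * hm I x y z ^ 2 := by
  have h1 : 0 ≤ (hm I x * hm I y * hm I x) z z := by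
    have e : hm I x * hm I y * hm I x =
        (1 / 75 : ℝ) • ((hm I y * hm I x)ᵀ * (hm I y * hm I x)) := by
      have e' : hm I x * hm I y * (hm I y * hm I x) = hm I x * (hm I y * hm I y) * hm I x := by
        simp only [Matrix.mul_assoc]
      rw [Matrix.transpose_mul, hm_symm, hm_symm, e', hm_sq h y, Matrix.mul_smul,
        Matrix.smul_mul, smul_smul]
      norm_num
    rw [e, Matrix.smul_apply, Matrix.mul_apply, smul_eq_mul]
    simp only [Matrix.transpose_apply]
    exact mul_nonneg (by norm_num) (Finset.sum_nonneg (fun w _ => mul_self_nonneg _))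
  rw [hm_hm_hm h, Matrix.smul_apply, Matrix.sub_apply, Matrix.mul_apply] at h1
  simp only [Matrix.mul_diagonal, smul_eq_mul, kap] at h1
  have e : ∑ w, hm I x z w * (adj I y w / 20 - if y = w then 7 / 80 else 0) * hm I x w z =
      (∑ w, adj I y w * (hm I x w z * hm I x w z)) / 20 - 7 / 80 * hm I x y z ^ 2 := by
    have e1 : ∀ w, hm I x z w * (adj I y w / 20 - if y = w then 7 / 80 else 0) * hm I x w z =
        adj I y w * (hm I x w z * hm I x w z) / 20
          - (if y = w then 7 / 80 * hm I x y z ^ 2 else 0) := by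
      intro w
      by_cases hw : y = w
      · subst hw
        rw [if_pos rfl, if_pos rfl, hm_comm I x z y]; ring
      · rw [if_neg hw, if_neg hw, hm_comm I x z w]; ring
    rw [Finset.sum_congr rfl (fun w _ => e1 w), Finset.sum_sub_distrib, ← Finset.sum_div]
    simp only [Finset.sum_ite_eq, Finset.mem_univ, if_true]
  rw [e, fsum h hy hz, hm_diag h hz] at h1
  have h2 := nonneg_of_mul_nonneg_right h1 (by norm_num)
  linarith

lemma kk_nonneg [Nonempty P] {x y z : P} (hy : Far I x y) (hz : Far I x z) :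
    0 ≤ kk I x y z := by
  by_contra hcon
  push Not at hcon
  have h1 := hm_pos h hy hz
  rw [hm_kk h hy hz] at h1
  have h2 : (kk I x y z : ℝ) ≤ -1 := by exact_mod_cast Int.le_sub_one_of_lt hcon
  nlinarith

end Pool.Agent.H2.GQ
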