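import Mathlib
import Pool.Agent.H2.GQ.Local

/-!
# Counting: the distribution of the numbers `K`

For a fixed point `x` and a point `u0` far from `x` we bound the fourth moment of the row
`hm I x u0` from above.
-/

namespace Pool.Agent.H2.GQ

open Matrix Finset

/-- the auxiliary weights -/
def phi (k : ℤ) : ℤ := if k = 5 then 4 else if k = 4 then 2 else if k = 3 then 1 else 0

lemma phi_triple (a b c : ℤ) (ha : 0 ≤ a) (hb : 0 ≤ b) (hc : 0 ≤ c) (hs : a + b + c = 5) :
    a ^ 2 + b ^ 2 + c ^ 2 - 9 ≤ 4 * (phi a + phi b + phi c) := by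
  have ha5 : a ≤ 5 := by omega
  have hb5 : b ≤ 5 := by omega
  obtain rfl : c = 5 - a - b := by omega
  interval_cases a <;> interval_cases b <;> first | omega | (simp [phi])

variable {P L : Type*} [Fintype P] [Fintype L] [DecidableEq P] (I : P → L → Prop)

open Classical in
/-- the points far from `x` -/
noncomputable def zs (x : P) : Finset P := Finset.univ.filter (fun z => Far I x z)

open Classical in
/-- the points of the line `l` different from `y` and far from `x` -/
noncomputable def ls (x y : P) (l : L) : Finset P :=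
  Finset.univ.filter (fun z => Far I x z ∧ I z l ∧ z ≠ y)

lemma mem_ls {x y z : P} {l : L} :
    z ∈ ls I x y l ↔ Far I x z ∧ I z l ∧ z ≠ y := by
  simp [ls]

lemma mem_zs {x z : P} : z ∈ zs I x ↔ Far I x z := by
  simp [zs]

variable {I} (h : IsGQ I 4 11)

include h

/-- sums over `zs` as sums over all points -/
lemma sum_zs (x : P) (f : P → ℝ) :
    ∑ z ∈ zs I x, f z = ∑ z, (1 - adj I x z - (if x = z then 1 else 0)) * f z := by
  classical
  rw [zs, Finset.sum_filter]
  refine Finset.sum_congr rfl (fun z _ => ?_)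
  by_cases hxz : x = z
  · subst hxz
    rw [if_pos rfl, adj_self h, if_neg (fun e => e.1 rfl)]; ring
  · rw [if_neg hxz]
    rcases adj_cases h x z with ⟨_, g1⟩ | ⟨_, g1⟩
    · rw [g1, if_neg (fun e => by have := e.2; rw [g1] at this; norm_num at this)]; ring
    · rw [g1, if_pos ⟨hxz, g1⟩]; ring

lemma sum_zs_hm [Nonempty P] (x y : P) (f : P → ℝ) :
    ∑ z ∈ zs I x, hm I x y z * f z = ∑ z, hm I x y z * f z := by
  rw [sum_zs h]
  refine Finset.sum_congr rfl (fun z _ => ?_)
  by_cases hxz : x = z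
  · subst hxz; rw [hm_self h]; ring
  · rw [if_neg hxz]
    rcases adj_cases h x z with ⟨_, g1⟩ | ⟨_, g1⟩
    · rw [hm_adj h g1]; ring
    · rw [g1]; ring

lemma zs_card [Nonempty P] (x : P) : ∑ _z ∈ zs I x, (1 : ℝ) = 176 := by
  rw [sum_zs h]
  simp only [mul_one, Finset.sum_sub_distrib, sum_adj h, Finset.sum_const, Finset.card_univ,
    nsmul_eq_mul, card_points h, Finset.sum_ite_eq, Finset.mem_univ, if_true]
  norm_num

omit [Fintype P] in
lemma line_not_mem {x y : P} (hy : Far I x y) {l : L} (hl : I y l) : inc I x l = 0 := by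
  rcases inc_cases I x l with ⟨h1, _⟩ | ⟨_, h1⟩
  · rcases adj_cases h x y with ⟨_, h2⟩ | ⟨h2, _⟩
    · rw [hy.2] at h2; norm_num at h2
    · exact absurd ⟨hy.1, l, h1, hl⟩ h2
  · exact h1

omit h in
lemma sum_ls (x y : P) (l : L) (f : P → ℝ) :
    ∑ z ∈ ls I x y l, f z =
      ∑ z ∈ zs I x, (inc I z l * f z * (if z = y then 0 else 1)) := by
  classical
  rw [ls, Finset.sum_filter, zs, Finset.sum_filter]
  refine Finset.sum_congr rfl (fun z _ => ?_)
  by_cases h1 : Far I x z
  · rcases inc_cases I z l with ⟨h2, h3⟩ | ⟨h2, h3⟩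
    · by_cases h4 : z = y
      · simp [h4]
      · simp [h1, h2, h3, h4]
    · simp [h2, h3]
  · simp [h1]

lemma ls_card {x y : P} (hy : Far I x y) {l : L} (hl : I y l) :
    (ls I x y l).card = 3 := by
  have h1 : ∑ _z ∈ ls I x y l, (1 : ℝ) = 3 := by
    rw [sum_ls, sum_zs h]
    have hyl := (inc_eq_one_iff I y l).2 hl
    have hxl := line_not_mem h hy hl
    have e : ∀ z, (1 - adj I x z - if x = z then 1 else 0) *
        (inc I z l * 1 * if z = y then 0 else 1) =
        inc I z l - adj I x z * inc I z l - (if z = y then 1 else 0) := by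
      intro z
      by_cases h2 : z = y
      · subst h2
        rw [if_pos rfl, if_pos rfl, hyl, hy.2]; ring
      · rw [if_neg h2, if_neg h2]
        by_cases h3 : x = z
        · subst h3; rw [hxl]; ring
        · rw [if_neg h3]; ring
    rw [Finset.sum_congr rfl (fun z _ => e z), Finset.sum_sub_distrib, Finset.sum_sub_distrib,
      sum_inc_points h, sum_adj_line h, hxl]
    simp only [Finset.sum_ite_eq', Finset.mem_univ, if_true]
    norm_num
  rw [Finset.sum_const, nsmul_eq_mul, mul_one] at h1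
  exact_mod_cast h1

lemma ls_sum_hm [Nonempty P] (x y : P) {l : L} (hl : I y l) (u0 : P) :
    ∑ z ∈ ls I x y l, hm I x u0 z = - hm I x u0 y := by
  rw [sum_ls]
  have e : ∀ z, inc I z l * hm I x u0 z * (if z = y then 0 else 1) =
      hm I x u0 z * (inc I z l * (if z = y then 0 else 1)) := fun z => by ring
  rw [Finset.sum_congr rfl (fun z _ => e z), sum_zs_hm h]
  have e2 : ∀ z, hm I x u0 z * (inc I z l * (if z = y then 0 else 1)) =
      hm I x u0 z * inc I z l - (if z = y then hm I x u0 y else 0) := by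
    intro z
    by_cases h2 : z = y
    · subst h2
      rw [if_pos rfl, if_pos rfl, (inc_eq_one_iff I z l).2 hl]; ring
    · rw [if_neg h2, if_neg h2]; ring
  rw [Finset.sum_congr rfl (fun z _ => e2 z), Finset.sum_sub_distrib, sum_hm_inc h]
  simp only [Finset.sum_ite_eq', Finset.mem_univ, if_true]
  ring

/-- the sum of the `K` over the three further points of a line -/
lemma ls_sum_kk [Nonempty P] {x y u0 : P} (hy : Far I x y) (hu : Far I x u0)
    (hyu : adj I u0 y = 1) {l : L} (hl : I y l) :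
    ∑ z ∈ ls I x y l, kk I x u0 z = 5 := by
  have h1 := ls_sum_hm h x y hl u0
  rw [hm_kk h hu hy, kk_adj h hu hy hyu] at h1
  have e : ∑ z ∈ ls I x y l, hm I x u0 z =
      5 / 4 * (∑ z ∈ ls I x y l, (kk I x u0 z : ℝ)) - 75 / 16 := by
    have e1 : ∀ z ∈ ls I x y l, hm I x u0 z = 5 / 4 * (kk I x u0 z : ℝ) - 25 / 16 := by
      intro z hz
      exact hm_kk h hu ((mem_ls I).1 hz).1
    rw [Finset.sum_congr rfl e1, Finset.sum_sub_distrib, ← Finset.mul_sum, Finset.sum_const,
      ls_card h hy hl]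
    norm_num
  rw [e] at h1
  have h2 : ∑ z ∈ ls I x y l, (kk I x u0 z : ℝ) = 5 := by
    push_cast at h1
    linarith
  exact_mod_cast h2

/-- the inequality for the three further points of a line -/
lemma ls_phi [Nonempty P] {x y u0 : P} (hy : Far I x y) (hu : Far I x u0)
    (hyu : adj I u0 y = 1) {l : L} (hl : I y l) :
    -9 ≤ ∑ z ∈ ls I x y l, (4 * phi (kk I x u0 z) - kk I x u0 z ^ 2) := by
  have h1 := ls_sum_kk h hy hu hyu hl
  have hnn : ∀ z ∈ ls I x y l, 0 ≤ kk I x u0 z := fun z hz =>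
    kk_nonneg h hu ((mem_ls I).1 hz).1
  obtain ⟨a, b, c, hab, hac, hbc, hs⟩ := Finset.card_eq_three.1 (ls_card h hy hl)
  rw [hs] at h1 hnn ⊢
  have s3 : ∀ f : P → ℤ, ∑ z ∈ ({a, b, c} : Finset P), f z = f a + f b + f c := by
    intro f
    rw [Finset.sum_insert (by simp [hab, hac]), Finset.sum_pair hbc, add_assoc]
  rw [s3] at h1
  rw [s3]
  have := phi_triple _ _ _ (hnn a (by simp)) (hnn b (by simp)) (hnn c (by simp)) h1
  linarith

/-- sums over the lines through `y` -/
lemma sum_lines (x y : P) (f : P → ℝ) :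
    ∑ l, inc I y l * ∑ z ∈ ls I x y l, f z = ∑ z ∈ zs I x, adj I y z * f z := by
  simp_rw [sum_ls, Finset.mul_sum]
  rw [Finset.sum_comm]
  refine Finset.sum_congr rfl (fun z _ => ?_)
  by_cases hz : z = y
  · subst hz
    rw [adj_self h]; simp
  · have hz' : ¬ y = z := fun e => hz e.symm
    rw [adj_apply I y z, if_neg hz', sub_zero, Finset.sum_mul]
    refine Finset.sum_congr rfl (fun l _ => ?_)
    rw [if_neg hz]; ring

lemma zs_adj_card {x y : P} (hy : Far I x y) : ∑ z ∈ zs I x, adj I y z = 36 := by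
  rw [sum_zs h]
  have e : ∀ z, (1 - adj I x z - if x = z then 1 else 0) * adj I y z =
      adj I y z - adj I x z * adj I y z - (if x = z then adj I y x else 0) := by
    intro z
    by_cases h3 : x = z
    · subst h3; rw [if_pos rfl, if_pos rfl]; ring
    · rw [if_neg h3, if_neg h3]; ring
  rw [Finset.sum_congr rfl (fun z _ => e z), Finset.sum_sub_distrib, Finset.sum_sub_distrib,
    sum_adj h, common_twelve h hy]
  simp only [Finset.sum_ite_eq, Finset.mem_univ, if_true]
  rw [adj_comm, hy.2]; norm_num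

/-- `∑ K² = 150` over the points far from `x` and collinear with `y`. -/
lemma sum_kk_sq [Nonempty P] {x y u0 : P} (hy : Far I x y) (hu : Far I x u0)
    (hyu : adj I u0 y = 1) :
    ∑ z ∈ zs I x, adj I y z * (kk I x u0 z : ℝ) ^ 2 = 150 := by
  have h0 : hm I x y u0 = -25 / 16 := by
    rw [hm_comm, hm_kk h hu hy, kk_adj h hu hy hyu]; norm_num
  have h1 := fsum h hy hu
  rw [h0] at h1
  have h2 := sum_hm_adj h x u0 y
  rw [hm_comm I x u0 y, h0] at h2
  have e1 : ∑ z, adj I y z * (hm I x z u0 * hm I x z u0) =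
      ∑ z ∈ zs I x, adj I y z * (hm I x u0 z) ^ 2 := by
    have := sum_zs_hm h x u0 (fun z => adj I y z * hm I x u0 z)
    calc _ = ∑ z, hm I x u0 z * (adj I y z * hm I x u0 z) := by
          refine Finset.sum_congr rfl (fun z _ => ?_)
          rw [hm_comm I x z u0]; ring
      _ = ∑ z ∈ zs I x, hm I x u0 z * (adj I y z * hm I x u0 z) := this.symm
      _ = _ := Finset.sum_congr rfl (fun z _ => by ring)
  have e2 : ∑ z, hm I x u0 z * adj I z y = ∑ z ∈ zs I x, adj I y z * hm I x u0 z := by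
    rw [← sum_zs_hm h x u0 (fun z => adj I z y)]
    refine Finset.sum_congr rfl (fun z _ => ?_)
    rw [adj_comm I z y]; ring
  rw [e1] at h1
  rw [e2] at h2
  have h3 := zs_adj_card h hy
  have e3 : ∑ z ∈ zs I x, adj I y z * (kk I x u0 z : ℝ) ^ 2 =
      16 / 25 * ∑ z ∈ zs I x, adj I y z * (hm I x u0 z) ^ 2
        + 2 * ∑ z ∈ zs I x, adj I y z * hm I x u0 z
        + 25 / 16 * ∑ z ∈ zs I x, adj I y z := by
    rw [Finset.mul_sum, Finset.mul_sum, Finset.mul_sum, ← Finset.sum_add_distrib,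
      ← Finset.sum_add_distrib]
    refine Finset.sum_congr rfl (fun z hz => ?_)
    rw [hm_kk h hu ((mem_zs I).1 hz)]
    ring
  rw [e3, h1, h2, h3]
  norm_num

/-- the key lower bound, using the parity -/
lemma phi_lower [Nonempty P] {x y u0 : P} (hy : Far I x y) (hu : Far I x u0)
    (hyu : adj I u0 y = 1) :
    11 ≤ ∑ z ∈ zs I x, adj I y z * (phi (kk I x u0 z) : ℝ) := by
  have h1 : ∑ l, inc I y l * (-9 : ℝ) ≤
      ∑ l, inc I y l * ∑ z ∈ ls I x y l,
        (((4 * phi (kk I x u0 z) - kk I x u0 z ^ 2 : ℤ)) : ℝ) := by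
    refine Finset.sum_le_sum (fun l _ => ?_)
    rcases inc_cases I y l with ⟨h2, h3⟩ | ⟨h2, h3⟩
    · rw [h3, one_mul, one_mul]
      have := ls_phi h hy hu hyu h2
      exact_mod_cast this
    · rw [h3, zero_mul, zero_mul]
  rw [← Finset.sum_mul, sum_inc_lines h, sum_lines h] at h1
  have e : ∑ z ∈ zs I x, adj I y z * (((4 * phi (kk I x u0 z) - kk I x u0 z ^ 2 : ℤ)) : ℝ) =
      4 * (∑ z ∈ zs I x, adj I y z * (phi (kk I x u0 z) : ℝ)) -
        ∑ z ∈ zs I x, adj I y z * (kk I x u0 z : ℝ) ^ 2 := by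
    rw [Finset.mul_sum, ← Finset.sum_sub_distrib]
    refine Finset.sum_congr rfl (fun z _ => ?_)
    push_cast; ring
  rw [e, sum_kk_sq h hy hu hyu] at h1
  have e2 : ∑ z ∈ zs I x, adj I y z * (phi (kk I x u0 z) : ℝ) =
      ((∑ z ∈ zs I x, az I y z * phi (kk I x u0 z) : ℤ) : ℝ) := by
    push_cast
    simp only [az_cast h]
  rw [e2] at h1 ⊢
  have h4 : (21 : ℤ) ≤ 2 * ∑ z ∈ zs I x, az I y z * phi (kk I x u0 z) := by
    have : (42 : ℝ) ≤ 4 * ((∑ z ∈ zs I x, az I y z * phi (kk I x u0 z) : ℤ) : ℝ) := by linarith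
    have h5 : (42 : ℤ) ≤ 4 * ∑ z ∈ zs I x, az I y z * phi (kk I x u0 z) := by exact_mod_cast this
    linarith
  have h6 : (11 : ℤ) ≤ ∑ z ∈ zs I x, az I y z * phi (kk I x u0 z) := by omega
  exact_mod_cast h6

/-- the number of points far from `x` and collinear with both `u0` and `u` -/
lemma count_between {x u0 : P} (hu : Far I x u0) (u : P) :
    ∑ y ∈ zs I x, adj I u0 y * adj I y u =
      7 + (if u0 = u then 24 else 0) - 5 * adj I u0 u + (kk I x u0 u : ℝ) := by
  rw [sum_zs h, kk_cast h]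
  have e : ∀ z, (1 - adj I x z - if x = z then 1 else 0) * (adj I u0 z * adj I z u) =
      adj I u0 z * adj I z u - adj I x z * adj I u0 z * adj I z u
        - (if x = z then adj I u0 x * adj I x u else 0) := by
    intro z
    by_cases h3 : x = z
    · subst h3; rw [if_pos rfl, if_pos rfl]; ring
    · rw [if_neg h3, if_neg h3]; ring
  rw [Finset.sum_congr rfl (fun z _ => e z), Finset.sum_sub_distrib, Finset.sum_sub_distrib,
    sum_adj_adj h]
  simp only [Finset.sum_ite_eq, Finset.mem_univ, if_true]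
  rw [adj_comm I u0 x, hu.2]
  split_ifs <;> ring

/-- the summed lower bound -/
lemma phi_total [Nonempty P] {x u0 : P} (hu : Far I x u0) :
    396 ≤ ∑ u ∈ zs I x, (phi (kk I x u0 u) : ℝ) *
      (7 + (if u0 = u then 24 else 0) - 5 * adj I u0 u + (kk I x u0 u : ℝ)) := by
  have h1 : ∑ y ∈ zs I x, adj I u0 y * (11 : ℝ) ≤ ∑ y ∈ zs I x, adj I u0 y *
      ∑ z ∈ zs I x, adj I y z * (phi (kk I x u0 z) : ℝ) := by
    refine Finset.sum_le_sum (fun y hy => ?_)
    rcases adj_cases h u0 y with ⟨_, g1⟩ | ⟨_, g1⟩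
    · rw [g1, one_mul, one_mul]
      exact phi_lower h ((mem_zs I).1 hy) hu g1
    · rw [g1, zero_mul, zero_mul]
  rw [← Finset.sum_mul, zs_adj_card h hu] at h1
  have h2 : ∑ y ∈ zs I x, adj I u0 y * ∑ z ∈ zs I x, adj I y z * (phi (kk I x u0 z) : ℝ) =
      ∑ u ∈ zs I x, (phi (kk I x u0 u) : ℝ) *
      (7 + (if u0 = u then 24 else 0) - 5 * adj I u0 u + (kk I x u0 u : ℝ)) := by
    simp_rw [Finset.mul_sum]
    rw [Finset.sum_comm]
    refine Finset.sum_congr rfl (fun u _ => ?_)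
    rw [← count_between h hu u, Finset.mul_sum]
    exact Finset.sum_congr rfl (fun y _ => by ring)
  rw [h2] at h1
  linarith

/-! ### The moments -/

lemma moments [Nonempty P] {x u0 : P} (hu : Far I x u0) :
    ∑ z ∈ zs I x, (kk I x u0 z : ℝ) = 220 ∧ ∑ z ∈ zs I x, (kk I x u0 z : ℝ) ^ 2 = 500 ∧
      ∑ z ∈ zs I x, (kk I x u0 z : ℝ) ^ 3 = 1300 := by
  have c0 := zs_card h x
  have c1 : ∑ z ∈ zs I x, hm I x u0 z = 0 := by
    have := sum_zs_hm h x u0 (fun _ => 1)
    simp only [mul_one] at this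
    rw [this, sum_hm h]
  have c2 : ∑ z ∈ zs I x, hm I x u0 z ^ 2 = 5625 / 16 := by
    have := sum_zs_hm h x u0 (fun z => hm I x u0 z)
    rw [← sum_hm_sq h hu]
    calc _ = ∑ z ∈ zs I x, hm I x u0 z * hm I x u0 z :=
          Finset.sum_congr rfl (fun z _ => by ring)
      _ = _ := this
      _ = _ := Finset.sum_congr rfl (fun z _ => by ring)
  have c3 : ∑ z ∈ zs I x, hm I x u0 z ^ 3 = 28125 / 128 := by
    have := sum_zs_hm h x u0 (fun z => hm I x u0 z ^ 2)
    rw [← sum_hm_cube h hu]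
    calc _ = ∑ z ∈ zs I x, hm I x u0 z * hm I x u0 z ^ 2 :=
          Finset.sum_congr rfl (fun z _ => by ring)
      _ = _ := this
      _ = _ := Finset.sum_congr rfl (fun z _ => by ring)
  have hk : ∀ z ∈ zs I x, (kk I x u0 z : ℝ) = 4 / 5 * hm I x u0 z + 5 / 4 * 1 := by
    intro z hz
    rw [hm_kk h hu ((mem_zs I).1 hz)]; ring
  refine ⟨?_, ?_, ?_⟩
  · rw [Finset.sum_congr rfl hk, Finset.sum_add_distrib, ← Finset.mul_sum, ← Finset.mul_sum, c0,
      c1]
    norm_num
  · have e : ∀ z ∈ zs I x, (kk I x u0 z : ℝ) ^ 2 =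
        16 / 25 * hm I x u0 z ^ 2 + 2 * hm I x u0 z + 25 / 16 * 1 := by
      intro z hz
      rw [hk z hz]; ring
    rw [Finset.sum_congr rfl e, Finset.sum_add_distrib, Finset.sum_add_distrib,
      ← Finset.mul_sum, ← Finset.mul_sum, ← Finset.mul_sum, c0, c1, c2]
    norm_num
  · have e : ∀ z ∈ zs I x, (kk I x u0 z : ℝ) ^ 3 =
        64 / 125 * hm I x u0 z ^ 3 + 12 / 5 * hm I x u0 z ^ 2 + 15 / 4 * hm I x u0 z
          + 125 / 64 * 1 := by
      intro z hz
      rw [hk z hz]; ring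
    rw [Finset.sum_congr rfl e, Finset.sum_add_distrib, Finset.sum_add_distrib,
      Finset.sum_add_distrib,
      ← Finset.mul_sum, ← Finset.mul_sum, ← Finset.mul_sum, ← Finset.mul_sum, c0, c1, c2, c3]
    norm_num

lemma choose_sum [Nonempty P] {x u0 : P} (hu : Far I x u0) :
    ∑ z ∈ zs I x, (kk I x u0 z : ℝ) * ((kk I x u0 z : ℝ) - 1) * ((kk I x u0 z : ℝ) - 2)
      = 240 := by
  obtain ⟨m1, m2, m3⟩ := moments h hu
  have e : ∀ z ∈ zs I x, (kk I x u0 z : ℝ) * ((kk I x u0 z : ℝ) - 1) * ((kk I x u0 z : ℝ) - 2) =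
      (kk I x u0 z : ℝ) ^ 3 - 3 * (kk I x u0 z : ℝ) ^ 2 + 2 * (kk I x u0 z : ℝ) := by
    intro z _; ring
  rw [Finset.sum_congr rfl e, Finset.sum_add_distrib, Finset.sum_sub_distrib, ← Finset.mul_sum,
    ← Finset.mul_sum, m1, m2, m3]
  norm_num

/-- no other `z` with `K = 5` -/
lemma kk_ne_five [Nonempty P] {x u0 z0 : P} (hu : Far I x u0) (hz : Far I x z0)
    (hne : u0 ≠ z0) : kk I x u0 z0 ≠ 5 := by
  intro h5
  have h1 := phi_total h hu
  have h2 := choose_sum h hu
  have h3 : ∑ u ∈ zs I x, (phi (kk I x u0 u) : ℝ) *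
      (7 + (if u0 = u then 24 else 0) - 5 * adj I u0 u + (kk I x u0 u : ℝ)) ≤
      ∑ u ∈ zs I x, (10 / 6 * ((kk I x u0 u : ℝ) * ((kk I x u0 u : ℝ) - 1)
        * ((kk I x u0 u : ℝ) - 2)) + (if u0 = u then 44 else 0)
        - (if z0 = u then 52 else 0)) := by
    refine Finset.sum_le_sum (fun u hu' => ?_)
    have hfu := (mem_zs I).1 hu'
    by_cases e1 : u0 = u
    · subst e1
      rw [kk_self h hu, if_pos rfl, if_pos rfl, if_neg (fun e => hne e.symm), adj_self h]
      norm_num [phi]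
    · rw [if_neg e1, if_neg e1]
      by_cases e2 : z0 = u
      · subst e2
        rw [h5, if_pos rfl]
        have : adj I u0 z0 = 0 := by
          rcases adj_cases h u0 z0 with ⟨_, g1⟩ | ⟨_, g1⟩
          · rw [kk_adj h hu hz g1] at h5; norm_num at h5
          · exact g1
        rw [this]
        norm_num [phi]
      · rw [if_neg e2]
        have k0 := kk_nonneg h hu hfu
        have k5 := kk_le h (x := x) e1
        rcases adj_cases h u0 u with ⟨_, g1⟩ | ⟨_, g1⟩
        · rw [kk_adj h hu hfu g1]; norm_num [phi]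
        · rw [g1]
          generalize kk I x u0 u = k at k0 k5
          interval_cases k <;> norm_num [phi]
  rw [Finset.sum_sub_distrib, Finset.sum_add_distrib, ← Finset.mul_sum, h2] at h3
  have h4 : ∑ u ∈ zs I x, (if u0 = u then (44 : ℝ) else 0) = 44 := by
    rw [Finset.sum_ite_eq, if_pos ((mem_zs I).2 hu)]
  have h6 : ∑ u ∈ zs I x, (if z0 = u then (52 : ℝ) else 0) = 52 := by
    rw [Finset.sum_ite_eq, if_pos ((mem_zs I).2 hz)]
  rw [h4, h6] at h3
  linarith

/-- the upper bound for the fourth moment -/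
theorem fourth_upper [Nonempty P] {x u0 : P} (hu : Far I x u0) :
    ∑ z ∈ zs I x, (4 * (kk I x u0 z : ℝ) - 5) ^ 4 ≤ 179824 := by
  have h1 := phi_total h hu
  have h2 := choose_sum h hu
  have c0 := zs_card h x
  obtain ⟨m1, m2, m3⟩ := moments h hu
  have h3 : ∑ z ∈ zs I x, (4 * (kk I x u0 z : ℝ) - 5) ^ 4 ≤
      ∑ u ∈ zs I x, (625 * 1 - 624 * (kk I x u0 u : ℝ) + 352 * ((kk I x u0 u : ℝ) ^ 2
          - (kk I x u0 u : ℝ)) + 256 * ((kk I x u0 u : ℝ) * ((kk I x u0 u : ℝ) - 1)
            * ((kk I x u0 u : ℝ) - 2)) + (if u0 = u then 30720 else 0)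
        + 6144 / 18 * ((10 / 6 * ((kk I x u0 u : ℝ) * ((kk I x u0 u : ℝ) - 1)
            * ((kk I x u0 u : ℝ) - 2)) + (if u0 = u then 44 else 0))
          - (phi (kk I x u0 u) : ℝ) * (7 + (if u0 = u then 24 else 0) - 5 * adj I u0 u
            + (kk I x u0 u : ℝ)))) := by
    refine Finset.sum_le_sum (fun u hu' => ?_)
    have hfu := (mem_zs I).1 hu'
    by_cases e1 : u0 = u
    · subst e1
      rw [kk_self h hu, if_pos rfl, if_pos rfl, if_pos rfl, adj_self h]
      norm_num [phi]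
    · rw [if_neg e1, if_neg e1, if_neg e1]
      have k0 := kk_nonneg h hu hfu
      have k5 := kk_le h (x := x) e1
      have k5' := kk_ne_five h hu hfu e1
      rcases adj_cases h u0 u with ⟨_, g1⟩ | ⟨_, g1⟩
      · rw [kk_adj h hu hfu g1]; norm_num [phi]
      · rw [g1]
        generalize kk I x u0 u = k at k0 k5 k5'
        interval_cases k <;> first | exact absurd rfl k5' | norm_num [phi]
  refine h3.trans ?_
  have h4 : ∑ u ∈ zs I x, (if u0 = u then (44 : ℝ) else 0) = 44 := by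
    rw [Finset.sum_ite_eq, if_pos ((mem_zs I).2 hu)]
  have h6 : ∑ u ∈ zs I x, (if u0 = u then (30720 : ℝ) else 0) = 30720 := by
    rw [Finset.sum_ite_eq, if_pos ((mem_zs I).2 hu)]
  simp only [Finset.sum_add_distrib, Finset.sum_sub_distrib, ← Finset.mul_sum, h2, h4, h6, c0,
    m1, m2]
  linarith

/-- the fourth moment of a row of `H x` -/
theorem hm_fourth [Nonempty P] {x u0 : P} (hu : Far I x u0) :
    ∑ z, hm I x u0 z ^ 4 ≤ 625 / 65536 * 179824 := by
  have h1 := sum_zs_hm h x u0 (fun z => hm I x u0 z ^ 3)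
  have e1 : ∑ z, hm I x u0 z ^ 4 = ∑ z ∈ zs I x, hm I x u0 z ^ 4 := by
    calc _ = ∑ z, hm I x u0 z * hm I x u0 z ^ 3 :=
          Finset.sum_congr rfl (fun z _ => by ring)
      _ = _ := h1.symm
      _ = _ := Finset.sum_congr rfl (fun z _ => by ring)
  have e2 : ∑ z ∈ zs I x, hm I x u0 z ^ 4 =
      625 / 65536 * ∑ z ∈ zs I x, (4 * (kk I x u0 z : ℝ) - 5) ^ 4 := by
    rw [Finset.mul_sum]
    refine Finset.sum_congr rfl (fun z hz => ?_)
    rw [hm_kk h hu ((mem_zs I).1 hz)]
    ring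
  rw [e1, e2]
  exact mul_le_mul_of_nonneg_left (fourth_upper h hu) (by norm_num)

end Pool.Agent.H2.GQ
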