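import Mathlib

/-!
# A fourth moment inequality (Welch, Sidelnikov)

For a real symmetric matrix `B` with `B * B = β • B` we prove
`0 ≤ β⁴ ∑ B(z,w)⁴ - 6 c β⁴ ∑ B(z,z)² + c² (3 β² t² + 6 β³ t)`, `t = tr B`, for all real `c`.
-/

namespace Pool.Agent.H2.GQ

open Matrix Finset

variable {P : Type*} [Fintype P]

lemma sum_sum_mul_factor (f g : P → ℝ) : ∑ a, ∑ b, f a * g b = (∑ a, f a) * ∑ b, g b := by
  rw [Finset.sum_mul_sum]

lemma welch_step (B : Matrix P P ℝ) (v : P → ℝ) (f : P → P → ℝ) :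
    ∑ a, ∑ b, (∑ z, v z * (B z a * B z b)) * f a b =
      ∑ z, v z * ∑ a, ∑ b, B z a * B z b * f a b := by
  have e1 : ∀ a b, (∑ z, v z * (B z a * B z b)) * f a b =
      ∑ z, v z * (B z a * B z b * f a b) := by
    intro a b
    rw [Finset.sum_mul]
    exact Finset.sum_congr rfl (fun z _ => by ring)
  simp_rw [e1]
  have e2 : ∀ a, ∑ b, ∑ z, v z * (B z a * B z b * f a b) =
      ∑ z, ∑ b, v z * (B z a * B z b * f a b) := fun a => Finset.sum_comm
  simp_rw [e2]
  rw [Finset.sum_comm]
  refine Finset.sum_congr rfl (fun z _ => ?_)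
  rw [Finset.mul_sum]
  refine Finset.sum_congr rfl (fun a _ => ?_)
  rw [Finset.mul_sum]

variable (B : Matrix P P ℝ) (β : ℝ) (hsym : Bᵀ = B) (hB : B * B = β • B)

omit [Fintype P] in
include hsym in
lemma w_comm (p q : P) : B p q = B q p := by
  have := congrFun (congrFun hsym p) q
  rw [← this, Matrix.transpose_apply]

include hsym hB in
lemma w_row (p q : P) : ∑ a, B p a * B q a = β * B p q := by
  have h2 := congrFun (congrFun hB p) q
  rw [Matrix.mul_apply] at h2
  rw [Matrix.smul_apply, smul_eq_mul] at h2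
  rw [← h2]
  exact Finset.sum_congr rfl (fun a _ => by rw [w_comm B hsym q a])

include hsym hB in
lemma w_col (p q : P) : ∑ a, B a p * B a q = β * B p q := by
  rw [← w_row B β hsym hB p q]
  exact Finset.sum_congr rfl (fun a _ => by rw [w_comm B hsym p a, w_comm B hsym q a])

include hsym hB in
/-- `∑ a, ∑ b, B p a B q b B a b = β² B p q` -/
lemma w_three (p q : P) : ∑ a, ∑ b, B p a * B q b * B a b = β ^ 2 * B p q := by
  have e : ∀ a, ∑ b, B p a * B q b * B a b = B p a * (β * B q a) := by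
    intro a
    rw [← w_row B β hsym hB q a, Finset.mul_sum]
    exact Finset.sum_congr rfl (fun b _ => by ring)
  simp_rw [e]
  have e2 : ∀ a, B p a * (β * B q a) = β * (B p a * B q a) := fun a => by ring
  simp_rw [e2]
  rw [← Finset.mul_sum, w_row B β hsym hB]
  ring

include hsym hB in
/-- the sum over two of the four indices -/
lemma welch_inner (c d : P) (lam : ℝ) :
    ∑ a, ∑ b, ((∑ z, (B z c * B z d) * (B z a * B z b))
        - lam * (B c d * B a b + B a c * B b d + B a d * B b c)) ^ 2 =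
      β ^ 2 * ∑ z, ∑ w, (B z c * B z d) * (B w c * B w d) * B z w ^ 2
        - 2 * lam * (β ^ 2 * ∑ z, (B z c * B z d) * (B c d * B z z + 2 * (B z c * B z d)))
        + lam ^ 2 * ((β * B.trace + 6 * β ^ 2) * B c d ^ 2 + 2 * β ^ 2 * (B c c * B d d)) := by
  set v : P → ℝ := fun z => B z c * B z d with hv
  set X : P → P → ℝ := fun a b => ∑ z, v z * (B z a * B z b) with hX
  set W : P → P → ℝ := fun a b => B c d * B a b + B a c * B b d + B a d * B b c with hW
  have row := w_row B β hsym hB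
  have col := w_col B β hsym hB
  have three := w_three B β hsym hB
  have comm := w_comm B hsym
  have e0 : ∑ a, ∑ b, (X a b - lam * W a b) ^ 2 =
      (∑ a, ∑ b, X a b * X a b) - 2 * lam * (∑ a, ∑ b, X a b * W a b)
        + lam ^ 2 * ∑ a, ∑ b, W a b * W a b := by
    simp_rw [Finset.mul_sum, ← Finset.sum_sub_distrib, ← Finset.sum_add_distrib]
    exact Finset.sum_congr rfl (fun a _ => Finset.sum_congr rfl (fun b _ => by ring))
  -- the first term
  have e1 : ∑ a, ∑ b, X a b * X a b = β ^ 2 * ∑ z, ∑ w, v z * v w * B z w ^ 2 := by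
    rw [hX, welch_step B v]
    rw [Finset.mul_sum]
    refine Finset.sum_congr rfl (fun z _ => ?_)
    have e2 : ∑ a, ∑ b, B z a * B z b * ∑ w, v w * (B w a * B w b) =
        ∑ w, v w * (β * B w z) ^ 2 := by
      have e3 := welch_step B v (fun a b => B z a * B z b)
      have e4 : ∑ a, ∑ b, B z a * B z b * ∑ w, v w * (B w a * B w b) =
          ∑ a, ∑ b, (∑ w, v w * (B w a * B w b)) * (B z a * B z b) :=
        Finset.sum_congr rfl (fun a _ => Finset.sum_congr rfl (fun b _ => by ring))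
      rw [e4, e3]
      refine Finset.sum_congr rfl (fun w _ => ?_)
      congr 1
      have e5 : ∑ a, ∑ b, B w a * B w b * (B z a * B z b) =
          ∑ a, ∑ b, (B w a * B z a) * (B w b * B z b) :=
        Finset.sum_congr rfl (fun a _ => Finset.sum_congr rfl (fun b _ => by ring))
      rw [e5, sum_sum_mul_factor, row]
      ring
    rw [e2, Finset.mul_sum, Finset.mul_sum]
    refine Finset.sum_congr rfl (fun w _ => ?_)
    rw [comm w z]; ring
  -- the second term
  have e2 : ∑ a, ∑ b, X a b * W a b =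
      β ^ 2 * ∑ z, v z * (B c d * B z z + 2 * (B z c * B z d)) := by
    rw [hX, welch_step B v, Finset.mul_sum]
    refine Finset.sum_congr rfl (fun z _ => ?_)
    have e3 : ∑ a, ∑ b, B z a * B z b * W a b =
        B c d * (∑ a, ∑ b, B z a * B z b * B a b)
          + (∑ a, ∑ b, (B z a * B a c) * (B z b * B b d))
          + ∑ a, ∑ b, (B z a * B a d) * (B z b * B b c) := by
      simp_rw [Finset.mul_sum, ← Finset.sum_add_distrib]
      exact Finset.sum_congr rfl (fun a _ => Finset.sum_congr rfl (fun b _ => by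
        simp only [hW]; ring))
    have r1 : ∀ c : P, ∑ a, B z a * B a c = β * B z c := by
      intro c
      rw [← row z c]
      exact Finset.sum_congr rfl (fun a _ => by rw [comm a c])
    rw [e3, three, sum_sum_mul_factor, sum_sum_mul_factor, r1, r1]
    ring
  -- the third term
  have e3 : ∑ a, ∑ b, W a b * W a b =
      (β * B.trace + 6 * β ^ 2) * B c d ^ 2 + 2 * β ^ 2 * (B c c * B d d) := by
    have f1 : ∑ a, ∑ b, W a b * W a b =
        B c d ^ 2 * (∑ a, ∑ b, B a b * B a b)
          + (∑ a, ∑ b, (B a c * B a c) * (B b d * B b d))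
          + (∑ a, ∑ b, (B a d * B a d) * (B b c * B b c))
          + 2 * B c d * (∑ a, ∑ b, B a c * B b d * B a b)
          + 2 * B c d * (∑ a, ∑ b, B a d * B b c * B a b)
          + 2 * ∑ a, ∑ b, (B a c * B a d) * (B b c * B b d) := by
      simp_rw [Finset.mul_sum, ← Finset.sum_add_distrib]
      exact Finset.sum_congr rfl (fun a _ => Finset.sum_congr rfl (fun b _ => by
        simp only [hW]; ring))
    have f2 : ∑ a, ∑ b, B a b * B a b = β * B.trace := by
      simp_rw [row]
      rw [← Finset.mul_sum]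
      rfl
    have f3 : ∀ c d : P, ∑ a, ∑ b, B a c * B b d * B a b = β ^ 2 * B c d := by
      intro c d
      rw [← three c d]
      exact Finset.sum_congr rfl (fun a _ => Finset.sum_congr rfl (fun b _ => by
        rw [comm a c, comm b d]))
    rw [f1, f2, f3, f3, sum_sum_mul_factor, sum_sum_mul_factor, sum_sum_mul_factor]
    simp only [col]
    rw [comm d c]
    ring
  have : ∑ a, ∑ b, ((∑ z, (B z c * B z d) * (B z a * B z b))
        - lam * (B c d * B a b + B a c * B b d + B a d * B b c)) ^ 2 =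
      ∑ a, ∑ b, (X a b - lam * W a b) ^ 2 := rfl
  rw [this, e0, e1, e2, e3]

include hsym hB in
/-- The fourth moment inequality. -/
theorem welch (lam : ℝ) :
    0 ≤ β ^ 4 * (∑ z, ∑ w, B z w ^ 4) - 6 * lam * (β ^ 4 * ∑ z, B z z ^ 2)
      + lam ^ 2 * (3 * β ^ 2 * B.trace ^ 2 + 6 * β ^ 3 * B.trace) := by
  have row := w_row B β hsym hB
  have col := w_col B β hsym hB
  have three := w_three B β hsym hB
  have comm := w_comm B hsym
  have h0 : 0 ≤ ∑ c, ∑ d, ∑ a, ∑ b, ((∑ z, (B z c * B z d) * (B z a * B z b))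
        - lam * (B c d * B a b + B a c * B b d + B a d * B b c)) ^ 2 :=
    Finset.sum_nonneg (fun c _ => Finset.sum_nonneg (fun d _ => Finset.sum_nonneg (fun a _ =>
      Finset.sum_nonneg (fun b _ => sq_nonneg _))))
  simp_rw [welch_inner B β hsym hB] at h0
  have s1 : ∑ c, ∑ d, (∑ z, ∑ w, (B z c * B z d) * (B w c * B w d) * B z w ^ 2) =
      β ^ 2 * ∑ z, ∑ w, B z w ^ 4 := by
    have t1 : ∀ c, ∑ d, (∑ z, ∑ w, (B z c * B z d) * (B w c * B w d) * B z w ^ 2) =
        ∑ z, ∑ w, ∑ d, (B z c * B z d) * (B w c * B w d) * B z w ^ 2 := by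
      intro c
      rw [Finset.sum_comm]
      exact Finset.sum_congr rfl (fun z _ => Finset.sum_comm)
    simp_rw [t1]
    rw [Finset.sum_comm, Finset.mul_sum]
    refine Finset.sum_congr rfl (fun z _ => ?_)
    rw [Finset.sum_comm, Finset.mul_sum]
    refine Finset.sum_congr rfl (fun w _ => ?_)
    have t2 : ∑ c, ∑ d, (B z c * B z d) * (B w c * B w d) * B z w ^ 2 =
        ∑ c, ∑ d, (B z c * B w c) * ((B z d * B w d) * B z w ^ 2) :=
      Finset.sum_congr rfl (fun a _ => Finset.sum_congr rfl (fun b _ => by ring))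
    rw [t2, sum_sum_mul_factor, ← Finset.sum_mul, row]
    ring
  have s2 : ∑ c, ∑ d, (∑ z, (B z c * B z d) * (B c d * B z z + 2 * (B z c * B z d))) =
      3 * (β ^ 2 * ∑ z, B z z ^ 2) := by
    have t1 : ∀ c, ∑ d, (∑ z, (B z c * B z d) * (B c d * B z z + 2 * (B z c * B z d))) =
        ∑ z, ∑ d, (B z c * B z d) * (B c d * B z z + 2 * (B z c * B z d)) :=
      fun c => Finset.sum_comm
    simp_rw [t1]
    rw [Finset.sum_comm, Finset.mul_sum, Finset.mul_sum]
    refine Finset.sum_congr rfl (fun z _ => ?_)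
    have t2 : ∑ c, ∑ d, (B z c * B z d) * (B c d * B z z + 2 * (B z c * B z d)) =
        B z z * (∑ c, ∑ d, B z c * B z d * B c d)
          + 2 * ∑ c, ∑ d, (B z c * B z c) * (B z d * B z d) := by
      simp_rw [Finset.mul_sum, ← Finset.sum_add_distrib]
      exact Finset.sum_congr rfl (fun a _ => Finset.sum_congr rfl (fun b _ => by ring))
    rw [t2, three, sum_sum_mul_factor, row]
    ring
  have s3 : ∑ c, ∑ d, ((β * B.trace + 6 * β ^ 2) * B c d ^ 2 + 2 * β ^ 2 * (B c c * B d d)) =
      3 * β ^ 2 * B.trace ^ 2 + 6 * β ^ 3 * B.trace := by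
    have t1 : ∑ c, ∑ d, ((β * B.trace + 6 * β ^ 2) * B c d ^ 2
        + 2 * β ^ 2 * (B c c * B d d)) =
        (β * B.trace + 6 * β ^ 2) * (∑ c, ∑ d, B c d * B c d)
          + 2 * β ^ 2 * ∑ c, ∑ d, B c c * B d d := by
      simp_rw [Finset.mul_sum, ← Finset.sum_add_distrib]
      exact Finset.sum_congr rfl (fun a _ => Finset.sum_congr rfl (fun b _ => by ring))
    have t2 : ∑ c, ∑ d, B c d * B c d = β * B.trace := by
      simp_rw [row]
      rw [← Finset.mul_sum]
      rfl
    have t3 : ∑ c, ∑ d, B c c * B d d = B.trace * B.trace := by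
      rw [sum_sum_mul_factor (fun c => B c c) (fun d => B d d)]
      rfl
    rw [t1, t2, t3]
    ring
  have s4 : ∀ (f g k : P → P → ℝ), ∑ c, ∑ d, (β ^ 2 * f c d - 2 * lam * (β ^ 2 * g c d)
      + lam ^ 2 * k c d) = β ^ 2 * (∑ c, ∑ d, f c d) - 2 * lam * (β ^ 2 * ∑ c, ∑ d, g c d)
        + lam ^ 2 * ∑ c, ∑ d, k c d := by
    intro f g k
    simp_rw [Finset.mul_sum, ← Finset.sum_sub_distrib, ← Finset.sum_add_distrib]
  rw [s4, s1, s2, s3] at h0
  calc (0 : ℝ) ≤ _ := h0
    _ = _ := by ring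

end Pool.Agent.H2.GQ
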