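import Mathlib
import Pool.Agent.H2.GQ.Count
import Pool.Agent.H2.GQ.Welch

/-!
# There is no generalized quadrangle of order (4, 11)
-/

namespace Pool.Agent.H2.GQ

open Matrix Finset

variable {P L : Type*} [Fintype P] [Fintype L] [DecidableEq P] {I : P → L → Prop}

theorem not_isGQ (h : IsGQ I 4 11) [Nonempty P] : False := by
  classical
  obtain ⟨x⟩ := ‹Nonempty P›
  haveI : Nonempty P := ⟨x⟩
  have hD : ∑ z, hm I x z z ^ 2 = 61875 / 16 := by
    have e : ∀ z, hm I x z z ^ 2 = (75 / 16 : ℝ) * hm I x z z := by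
      intro z
      by_cases hz : Far I x z
      · rw [hm_diag h hz]; ring
      · rw [hm_far h hz]; ring
    rw [Finset.sum_congr rfl (fun z _ => e z), ← Finset.mul_sum]
    have := trace_hm h x
    simp only [Matrix.trace, Matrix.diag_apply] at this
    rw [this]; norm_num
  have hS : ∑ z, ∑ w, hm I x z w ^ 4 ≤ 176 * (625 / 65536 * 179824) := by
    have e : ∀ z, ∑ w, hm I x z w ^ 4 ≤
        (1 - adj I x z - (if x = z then 1 else 0)) * (625 / 65536 * 179824) := by
      intro z
      by_cases hz : Far I x z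
      · rw [hz.2, if_neg hz.1]
        have := hm_fourth h hz
        linarith
      · have e1 : ∑ w, hm I x z w ^ 4 = 0 :=
          Finset.sum_eq_zero (fun w _ => by rw [hm_far' h hz]; ring)
        rw [e1]
        by_cases hx : x = z
        · subst hx; rw [adj_self h, if_pos rfl]; norm_num
        · rw [if_neg hx]
          rcases adj_cases h x z with ⟨_, g1⟩ | ⟨_, g1⟩
          · rw [g1]; norm_num
          · exact absurd ⟨hx, g1⟩ hz
    calc _ ≤ ∑ z, (1 - adj I x z - (if x = z then 1 else 0)) * (625 / 65536 * 179824) :=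
          Finset.sum_le_sum (fun z _ => e z)
      _ = (∑ z, (1 - adj I x z - (if x = z then 1 else 0)) * 1) * (625 / 65536 * 179824) := by
          rw [Finset.sum_mul]
          exact Finset.sum_congr rfl (fun z _ => by ring)
      _ = _ := by rw [← sum_zs h x (fun _ => 1), zs_card h]
  have hW := welch (hm I x) 75 (hm_symm I x) (hm_sq h x) (3 * (61875 / 16) / 429)
  rw [trace_hm h, hD] at hW
  have h4 : (75 : ℝ) ^ 4 * ∑ z, ∑ w, hm I x z w ^ 4 ≤
      75 ^ 4 * (176 * (625 / 65536 * 179824)) := mul_le_mul_of_nonneg_left hS (by norm_num)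
  norm_num at hW h4
  linarith

end Pool.Agent.H2.GQ
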